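import Pool.Agent.Lib.T3Q.Blue

/-! Row ARITH: choice of the parameters for fixed levels inside the tube. -/

namespace Pool.Agent.Lib.T3Q

open Filter Topology

namespace ARITH

lemma two_pow {a b : ℕ} (h : a ≤ b) : 2 ^ a ≤ 2 ^ b := Nat.pow_le_pow_right (by norm_num) h

lemma third (c s ρ : ℕ) (hc : c ≤ 2 ^ s) (hs : 2 ≤ s) (hρ : 800 * s ≤ ρ) :
    2000 * (c * 2 ^ (108 * s) * ρ) ^ 3 * 2 ^ (s * 56) ≤ 2 ^ ρ := by
  have h1 : ρ ≤ 2 ^ (ρ / 6 + 3) := by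
    have h : ρ / 6 < 2 ^ (ρ / 6) := Nat.lt_two_pow_self
    rw [pow_add]
    omega
  have h2 : c * 2 ^ (108 * s) * ρ ≤ 2 ^ (s + 108 * s + (ρ / 6 + 3)) := by
    rw [pow_add 2 (s + 108 * s), pow_add 2 s]
    exact Nat.mul_le_mul (Nat.mul_le_mul_right _ hc) h1
  calc 2000 * (c * 2 ^ (108 * s) * ρ) ^ 3 * 2 ^ (s * 56)
      ≤ 2 ^ 11 * (2 ^ (s + 108 * s + (ρ / 6 + 3))) ^ 3 * 2 ^ (s * 56) :=
        Nat.mul_le_mul_right _ (Nat.mul_le_mul (by norm_num) (Nat.pow_le_pow_left h2 3))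
    _ = 2 ^ (11 + (s + 108 * s + (ρ / 6 + 3)) * 3 + s * 56) := by
        rw [← pow_mul, ← pow_add, ← pow_add]
    _ ≤ 2 ^ ρ := two_pow (by omega)

lemma fourth (c s k : ℕ) (hc : c ≤ 2 ^ s) (hs : 1 ≤ s) (hk : s ≤ s * k) :
    3 * ((c * 2 ^ (108 * s)) ^ (2 * k) * (800 * s)) ≤ 2 ^ (1020 * (s * k)) := by
  have h1 : c * 2 ^ (108 * s) ≤ 2 ^ (s + 108 * s) := by
    rw [pow_add 2 s]
    exact Nat.mul_le_mul_right _ hc
  have h2 : (s + 108 * s) * (2 * k) = 218 * (s * k) := by ring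
  calc 3 * ((c * 2 ^ (108 * s)) ^ (2 * k) * (800 * s))
      ≤ 2 ^ 2 * ((2 ^ (s + 108 * s)) ^ (2 * k) * 2 ^ (800 * s)) :=
        Nat.mul_le_mul (by norm_num)
          (Nat.mul_le_mul (Nat.pow_le_pow_left h1 _) Nat.lt_two_pow_self.le)
    _ = 2 ^ (2 + (218 * (s * k) + 800 * s)) := by
        rw [← pow_mul, h2, ← pow_add, ← pow_add]
    _ ≤ 2 ^ (1020 * (s * k)) := two_pow (by omega)

lemma rpow2 {a b : ℕ} (h : a ≤ b) : (2 : ℝ) ^ a ≤ 2 ^ b := pow_le_pow_right₀ one_le_two h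

end ARITH

open ARITH in
theorem bARITH : St_ARITH := by
  intro c₀ C δ C₀ h0 _ hC hδ
  obtain ⟨e, he⟩ := exists_pow_lt_of_lt_one h0 (show (1 / 2 : ℝ) < 1 by norm_num)
  obtain ⟨g, hg⟩ := exists_nat_ge C
  obtain ⟨B, hB⟩ : ∃ B : ℕ, B = e + g + 12 * C₀ + 66 := ⟨_, rfl⟩
  have hC0 : 0 < C := by linarith
  have hQ : (0 : ℝ) < 30 * C * (1 + 7000 * B) := by positivity
  obtain ⟨k₀, hk₀⟩ := eventually_atTop.1
    ((tendsto_pow_const_div_const_pow_of_one_lt 3 (one_lt_two (α := ℝ))).eventually_le_const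
      (div_pos hδ hQ))
  refine ⟨7001 * B, k₀ + 1, fun k hk => ?_⟩
  have hk1 : 1 ≤ k := by omega
  obtain ⟨s, hs⟩ : ∃ s : ℕ, s = B * k := ⟨_, rfl⟩
  have s1 : B ≤ s := hs ▸ Nat.le_mul_of_pos_right B hk1
  have s2 : e + 6 * k ≤ s := by
    have b1 : e ≤ e * k := Nat.le_mul_of_pos_right e hk1
    have b2 : (e + 6) * k ≤ B * k := Nat.mul_le_mul_right _ (by omega)
    rw [add_mul] at b2
    omega
  have s3 : s ≤ s * k := Nat.le_mul_of_pos_right s hk1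
  have s4 : s < 2 ^ s := Nat.lt_two_pow_self
  have s5 : 7001 * B * k ^ 2 = 7001 * (s * k) := by rw [hs]; ring
  have hCs : C ≤ 2 ^ s := hg.trans (by exact_mod_cast (show g ≤ 2 ^ s by omega))
  have hθ : (1 / 2 : ℝ) ^ s ≤ c₀ / 64 ^ k := by
    have h4 : (64 : ℝ) ^ k = 2 ^ (6 * k) := by
      rw [pow_mul]
      norm_num
    refine (pow_le_pow_of_le_one (by norm_num) (by norm_num) s2).trans ?_
    rw [h4, pow_add, le_div_iff₀ (by positivity), mul_assoc, ← mul_pow]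
    norm_num
    simpa using he.le
  have hp : ∀ n : ℕ, 1 / (2 : ℝ) ^ (s * n) ≤ (c₀ / 64 ^ k) ^ n := fun n => by
    rw [← one_div_pow, pow_mul]
    exact pow_le_pow_left₀ (by positivity) hθ n
  rw [s5]
  refine ⟨2 ^ (108 * s), 800 * s, 2 ^ (1020 * (s * k)), 2 ^ (1029 * (s * k)), 7000 * (s * k),
    by omega, ?_, fun ρ hρ => ?_, fourth _ s k (by omega) (by omega) s3, ?_, ?_, ?_, ?_, ?_, ?_,
    hk1⟩
  · refine le_trans ?_ (mul_le_mul_of_nonneg_right (hp 107) (Nat.cast_nonneg _))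
    rw [Nat.cast_pow, Nat.cast_ofNat, one_div_mul_eq_div, le_div_iff₀ (by positivity),
      show (32 : ℝ) = 2 ^ 5 by norm_num, ← pow_add]
    exact rpow2 (by omega)
  · have h1 := third (6 * C₀ + 24) s ρ (by omega) (by omega) hρ
    have h2 : (2000 : ℝ) * (((6 * C₀ + 24 : ℕ) : ℝ) * ((2 ^ (108 * s) : ℕ) : ℝ) * ρ) ^ 3 *
        2 ^ (s * 56) ≤ 2 ^ ρ := by exact_mod_cast h1
    refine le_trans ?_ (hp 56)
    rw [one_div_pow, mul_one_div, div_le_div_iff₀ (by positivity) (by positivity), one_mul]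
    exact h2
  · refine (mul_le_mul_of_nonneg_right hCs (by positivity)).trans ?_
    rw [Nat.cast_pow, Nat.cast_ofNat, ← pow_add]
    exact rpow2 (by omega)
  · refine (mul_le_mul_of_nonneg_left (mul_le_mul_of_nonneg_right hCs (Nat.cast_nonneg _))
      (by positivity)).trans ?_
    rw [Nat.cast_pow, Nat.cast_pow, Nat.cast_ofNat, ← pow_add, ← pow_add]
    exact rpow2 (by omega)
  · have b1 : s * k < 2 ^ (s * k) := Nat.lt_two_pow_self
    have b2 : 2 ^ (13 + s * k) ≤ 2 ^ (1029 * (s * k)) := two_pow (by omega)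
    rw [pow_add] at b2
    omega
  · refine (mul_le_mul_of_nonneg_right hCs (Nat.cast_nonneg _)).trans ?_
    rw [Nat.cast_pow, Nat.cast_ofNat, ← pow_add]
    exact rpow2 (by omega)
  · have b1 : (2 : ℝ) ^ k / 2 ^ (7001 * (s * k)) ≤ 1 / 2 ^ (7000 * (s * k)) := by
      rw [div_le_div_iff₀ (by positivity) (by positivity), one_mul, ← pow_add]
      exact rpow2 (by omega)
    have b2 : (2 : ℝ) ^ k / 2 ^ (7001 * (s * k)) + (1 / 2) ^ (7000 * (s * k)) ≤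
        2 / 2 ^ (7000 * (s * k)) := by
      rw [one_div_pow, show (2 : ℝ) / 2 ^ (7000 * (s * k)) =
        1 / 2 ^ (7000 * (s * k)) + 1 / 2 ^ (7000 * (s * k)) by ring]
      exact add_le_add b1 le_rfl
    refine le_trans ?_ (hp 27)
    refine (mul_le_mul_of_nonneg_left (mul_le_mul
      (mul_le_mul_of_nonneg_right hCs (by positivity)) b2 (by positivity) (by positivity))
      (by norm_num)).trans ?_
    rw [Nat.cast_pow, Nat.cast_ofNat, ← pow_mul, ← pow_add, ← mul_div_assoc, ← mul_div_assoc,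
      div_le_div_iff₀ (by positivity) (by positivity), one_mul, ← pow_succ,
      show (16 : ℝ) = 2 ^ 4 by norm_num, ← pow_add, ← pow_add]
    exact rpow2 (by omega)
  · have b1 := hk₀ k (by omega)
    rw [div_le_div_iff₀ (by positivity) hQ] at b1
    have b2 : (1 : ℝ) ≤ k := by exact_mod_cast hk1
    have b3 : (1 : ℝ) ≤ 2 ^ k := one_le_pow₀ one_le_two
    have b4 : (1 : ℝ) ≤ (k : ℝ) ^ 2 := one_le_pow₀ b2
    have b5 : (2 : ℝ) ^ k + ((7000 * (s * k) : ℕ) : ℝ) ≤ (1 + 7000 * B) * (k : ℝ) ^ 2 * 2 ^ k := by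
      have c1 : (2 : ℝ) ^ k ≤ (k : ℝ) ^ 2 * 2 ^ k := le_mul_of_one_le_left (by positivity) b4
      have c2 : 7000 * (B : ℝ) * (k : ℝ) ^ 2 ≤ 7000 * B * (k : ℝ) ^ 2 * 2 ^ k :=
        le_mul_of_one_le_right (by positivity) b3
      rw [hs]
      push_cast
      linarith
    have b6 : (4 : ℝ) ^ k = 2 ^ k * 2 ^ k := by
      rw [← mul_pow]
      norm_num
    calc 30 * (k : ℝ) * (C * (2 ^ k + ((7000 * (s * k) : ℕ) : ℝ)))
        ≤ 30 * (k : ℝ) * (C * ((1 + 7000 * B) * (k : ℝ) ^ 2 * 2 ^ k)) :=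
          mul_le_mul_of_nonneg_left (mul_le_mul_of_nonneg_left b5 hC0.le) (by positivity)
      _ = (k : ℝ) ^ 3 * (30 * C * (1 + 7000 * B)) * 2 ^ k := by ring
      _ ≤ δ * 2 ^ k * 2 ^ k := mul_le_mul_of_nonneg_right b1 (by positivity)
      _ = δ * 4 ^ k := by rw [b6, mul_assoc]

end Pool.Agent.Lib.T3Q
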