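import Pool.Agent.Lib.T3Q.Blue

/-! The gain after `n` rounds cannot pass the strong lower tail. -/

namespace Pool.Agent.Lib.T3Q

open MeasureTheory ProbabilityTheory Filter Topology Finset Pool.Agent.Lib.V3
open Pool.Agent.Lib.V5 (SW T Sys)
open Pool.Agent.Lib.T3S (Tb Qt Ok Gain Lin Adm)
open scoped NNReal ENNReal

theorem bEND (hL : T3S.St_LIN) (hI : St_ITER) : St_END := by
  intro p θ t C₀ ρ₀ M n x hC₀ hb hA hq hθ hρ₀ hM hρ hps hx hQ hO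
  have hθ0 : 0 < θ := hA.1
  have hθ1 : θ ≤ 1 := hA.2.1
  have h14 : θ ^ 27 ≤ θ ^ 14 := pow_le_pow_of_le_one hθ0.le hθ1 (by norm_num)
  have h7 : θ ^ 7 ≤ 1 / 2 :=
    (pow_le_of_le_one hθ0.le hθ1 (by norm_num)).trans hθ
  have hG := hI p (2 * p.b) θ (2 ^ n * p.d) C₀ ρ₀ M n (by linarith [p.b_pos]) (hL p.toSys) hC₀
    (by linarith) hA hq hθ le_rfl hρ₀ (hps.trans h14) hM hρ 0 x (1 / 2) t
    (by simpa only [sub_zero] using hx) h7 le_rfl hQ hO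
  by_contra hc
  rw [not_le] at hc
  have hΛ : n1 (x - 0) ≤ p.Λ := by
    have h1 : (1 : ℝ) ≤ 2 ^ (4 * n) := one_le_pow₀ one_le_two
    exact (le_mul_of_one_le_left (n1_nonneg _) h1).trans hO.1
  have hsub : p.pr {τ | T τ 0 x ≤ t - (2 ^ n - 1) * p.d / 2} ≤ p.ps := by
    refine le_trans (p.pr_mono fun τ hτ => ?_) (p.out 0)
    refine ⟨x, hΛ, ?_⟩
    have h1 : T τ 0 x ≤ t - (2 ^ n - 1) * p.d / 2 := hτ
    have h2 := p.ψ_nonneg (x - 0)
    rw [sub_zero] at h2 ⊢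
    linarith
  have h27 : 0 < θ ^ 27 := pow_pos hθ0 27
  rw [pow_zero, mul_one] at hG
  linarith

end Pool.Agent.Lib.T3Q
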