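import Pool.Agent.Lib.T3Q.Blue

/-! A heavy unmarked step on a long path. -/

namespace Pool.Agent.Lib.T3Q

open Finset Pool.Agent.Lib.V3
open scoped NNReal

open Classical in
lemma GOOD.card_le (Ev : V × V → Set Cfg) (I : Finset (V × V)) (τ : Cfg) (m : ℕ)
    (f : ℕ → V × V) (hI : ∀ j, j < m → f j ∈ I)
    (hf : ∀ i j, i < m → j < m → f i = f j → i = j) :
    ((range m).filter fun j => τ ∈ Ev (f j)).card ≤ cn Ev I τ := by
  unfold cn
  refine card_le_card_of_injOn f (fun j hj => ?_) (fun i hi j hj h => ?_)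
  · rw [coe_filter] at hj ⊢
    exact ⟨hI j (mem_range.1 hj.1), hj.2⟩
  · rw [coe_filter] at hi hj
    exact hf i j (mem_range.1 hi.1) (mem_range.1 hj.1) h

theorem bGOOD : St_GOOD := by
  classical
  intro hi τ I Ev Ev' n g hP hL hI hc
  by_contra hno
  have h1 := GOOD.card_le Ev I τ n (fun j => (g j, g (j + 1))) (fun j hj => (hI j hj).1)
    fun i j hi hj h => hP.2 i j hi.le hj.le (congrArg Prod.fst h)
  have h2 := GOOD.card_le Ev' I τ n (fun j => (g (j + 1), g j)) (fun j hj => (hI j hj).2)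
    fun i j hi hj h => hP.2 i j hi.le hj.le (congrArg Prod.snd h)
  have hsub : range n ⊆ ((range n).filter fun j => τ s(g j, g (j + 1)) ≤ hi) ∪
      (((range n).filter fun j => τ ∈ Ev (g j, g (j + 1))) ∪
        ((range n).filter fun j => τ ∈ Ev' (g (j + 1), g j))) := by
    intro j hj
    rw [mem_union, mem_union, mem_filter, mem_filter, mem_filter]
    by_contra hcon
    exact hno ⟨j, mem_range.1 hj, not_le.1 fun h => hcon (Or.inl ⟨hj, h⟩),
      fun h => hcon (Or.inr (Or.inl ⟨hj, h⟩)), fun h => hcon (Or.inr (Or.inr ⟨hj, h⟩))⟩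
  have h3 := (card_le_card hsub).trans
    ((card_union_le _ _).trans (Nat.add_le_add_left (card_union_le _ _) _))
  rw [card_range] at h3
  refine hL ⟨g, rfl, hP, ?_⟩
  omega

end Pool.Agent.Lib.T3Q
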