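import Pool.Agent.Lib.T3Q.Blue

/-! Row MONO: a gain at the lowest level is a gain at every higher level. -/

namespace Pool.Agent.Lib.T3Q

open MeasureTheory ProbabilityTheory Pool.Agent.Lib.V3
open scoped NNReal ENNReal

theorem bMONO (hQ : T3S.St_QUANT) : St_MONO := by
  intro p j g ρ π c h0 h1 h u v α t hρ hα _ hq ho
  rw [pow_zero, mul_one]
  obtain ⟨s, hs⟩ := hQ p.toPar u v π h0 h1
  rcases le_or_gt s t with k | k
  · exact (h u v s hρ hs (ok_le k ho)).trans
      (p.toPar.pr_mono fun τ hτ => le_trans hτ (sub_le_sub_right k g))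
  · refine h u v t hρ ⟨le_trans (p.toPar.pr_mono fun τ hτ => ?_) hs.1, hα.trans hq.2⟩ ho
    exact lt_trans hτ k

end Pool.Agent.Lib.T3Q
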