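import Pool.Agent.Lib.T3Q.Blue
import Pool.Agent.Lib.T3S.B_DICH

/-! Row ONE: one good edge in the first shell of the tube. -/

namespace Pool.Agent.Lib.T3Q

open MeasureTheory ProbabilityTheory Filter Topology Finset Pool.Agent.Lib.V3
open Pool.Agent.Lib.V5 (SW T Sys)
open Pool.Agent.Lib.T3X (Pth Dz bl near)
open Pool.Agent.Lib.T3S (Tb Qt Ok Gain Lin Adm Lig Tu Sh)
open scoped NNReal ENNReal

theorem bONE (hK : St_KIT) (hE : T3S.St_PEI) (hS : St_SUMC) (hP : St_PICK) (hG : St_GOOD) :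
    St_ONE := by
  classical
  intro p B₁ B₂ Γ Z u v a b π₁ σ₁ π₂ σ₂ ε θ t H w N hA s1 s2 hε p1 p2 c1 c2 hw hZ hs hd hO hps hB
    ha hb r1 r2 hW hC
  obtain ⟨-, -, -, -, -, -, k7, k8, k9, k10, -⟩ := hK
  have hw' : (2 : ℝ) ≤ w := by exact_mod_cast hw
  obtain ⟨I, mI, cI⟩ : ∃ I : Finset (V × V),
      (∀ y z, (y, z) ∈ I ↔ G.Adj y z ∧ Sh u w 1 y ∧ Sh u w 1 z ∧ p.ψ (y - u) ≤ p.X) ∧
      (I.card : ℝ) ≤ 100 * (w : ℝ) ^ 2 * (p.C * p.X) := by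
    refine ⟨(Dz (Tu p u (2 * w))).filter fun i => Sh u w 1 i.1 ∧ Sh u w 1 i.2, fun y z => ?_, ?_⟩
    · rw [mem_filter, T3X.mem_Dz, T3S.mem_Tu]
      exact ⟨fun h => ⟨h.1.2, h.2.1, h.2.2, h.1.1.2⟩,
        fun h => ⟨⟨⟨h.2.1.2, h.2.2.2⟩, h.1⟩, h.2.1, h.2.2.1⟩⟩
    · have e1 : (((Dz (Tu p u (2 * w))).filter fun i => Sh u w 1 i.1 ∧ Sh u w 1 i.2).card : ℝ) ≤
          (Dz (Tu p u (2 * w))).card := by exact_mod_cast card_filter_le _ _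
      have e2 := T3S.card_Tu p u (n := 2 * w) (by omega)
      have e3 : (0 : ℝ) ≤ (w : ℝ) ^ 2 * (p.C * p.X) :=
        mul_nonneg (by positivity) (mul_nonneg (zero_le_one.trans p.one_le_C)
          (zero_le_one.trans p.one_le_X))
      push_cast at e2
      nlinarith
  have m1 := hS p B₁ Γ Z u v a π₁ σ₁ ε θ t H w I hA s1 hε p1 c1 hw cI hZ (fun i hi => by
    obtain ⟨j1, j2, j3, -⟩ := (mI i.1 i.2).1 hi
    obtain ⟨l1, -, l3⟩ := hB _ _ j1 j2 j3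
    exact ⟨j1, l1, l3, ha _ j2⟩) r1
  have m2 := hS p B₂ Γ Z v u b π₂ σ₂ ε θ t H w I hA s2 hε p2 c2 hw cI hZ (fun i hi => by
    obtain ⟨j1, j2, j3, -⟩ := (mI i.1 i.2).1 hi
    obtain ⟨-, l2, l3⟩ := hB _ _ j1 j2 j3
    exact ⟨j1, l2, l3, hb _ j2⟩) (k10 u v t H ▸ r2)
  rw [← k9 _ u v t H] at m2
  have k2 : p.pr (((⋃ y ∈ bl u (2 * w), Lig p.hi y (w - 1)) ∪
      {τ | ∃ y, n1 (y - u) ≤ p.Λ ∧ T τ u y < p.ρ (y - u) + p.ψ (y - u) - p.S}) ∪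
      {τ | ∃ y, n1 (v - y) ≤ p.Λ ∧ T τ y v < p.ρ (v - y) - p.S}) ≤ ε / 4 := by
    have e1 := T3S.DICH.lig hE p u (2 * w) (w - 1)
    have e5 : 2 * ((2 * w : ℕ) : ℝ) + 1 ≤ 5 * (w : ℝ) := by
      push_cast
      linarith
    have e6 : (2 * ((2 * w : ℕ) : ℝ) + 1) ^ 3 ≤ (5 * (w : ℝ)) ^ 3 := by gcongr
    have e7 := mul_le_mul_of_nonneg_right e6 (by positivity : (0 : ℝ) ≤ (1 / 2) ^ (w - 1))
    have e8 : (5 * (w : ℝ)) ^ 3 * (1 / 2 : ℝ) ^ (w - 1) =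
        1000 * (w : ℝ) ^ 3 * (1 / 2) ^ (w - 1) / 8 := by ring
    refine ((p.pr_union_le _ _).trans (add_le_add ((p.pr_union_le _ _).trans
      (add_le_add e1 (p.out u))) (p.inn v))).trans ?_
    linarith
  obtain ⟨τ, t1, t2, t3⟩ := hP p.toPar (Wn (p.d / 2) u v t H ∩ Z) _ I
    (EvX p.hi (p.d / 2) B₁ Γ u v a) (EvX p.hi (p.d / 2) B₂ Γ v u b) ε (w - 1) hε (by omega)
    ((k8 _ _ _ _ _).inter hZ) (k7 _ _ _ _ _ _ _) (k7 _ _ _ _ _ _ _) hW k2 (by linarith)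
  simp only [Set.mem_union, not_or] at t2
  obtain ⟨g, g1, g2, g4⟩ := hC τ
  have tb : ∀ y, Sh u w 1 y → T τ u y + T τ y v ≤ T τ u v + p.d / 2 → p.ψ (y - u) ≤ p.X :=
    fun y hy h => T3S.DICH.tube p (j := 0) hO (hy.2.trans hd) t2.1.2 t2.2 (by linarith [t1.1.2])
  obtain ⟨j, hj, q1, q2, q3⟩ := hG p.hi τ I _ _ (w - 1) g g1
    (fun h => t2.1.1 (Set.mem_biUnion (mem_coe.2 (T3X.mem_bl.2 (g2 0 (Nat.zero_le _)).2)) h))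
    (fun j hj => by
      have e0 := (g4 j hj).1
      have e1 := V5.T_adj τ (g1.1 j hj)
      have e2 := V5.T_tri τ (g j) (g (j + 1)) v
      have e3 := V5.T_tri τ u (g j) (g (j + 1))
      exact ⟨(mI _ _).2 ⟨g1.1 j hj, g2 j hj.le, g2 (j + 1) hj, tb _ (g2 j hj.le) (by linarith)⟩,
        (mI _ _).2 ⟨(g1.1 j hj).symm, g2 (j + 1) hj, g2 j hj.le,
          tb _ (g2 (j + 1) hj) (by linarith)⟩⟩) t3
  obtain ⟨o1, o2⟩ := g4 j hj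
  refine ⟨τ, g j, g (j + 1), t1.1.2, g1.1 j hj, g2 j hj.le, g2 (j + 1) hj, q1, o1, o2,
    fun h => le_of_not_gt fun h' => q2 ⟨o1, q1, h, h'⟩,
    fun h => le_of_not_gt fun h' => q3 ⟨?_, ?_, h, h'⟩⟩
  · show T τ v (g (j + 1)) + τ s(g (j + 1), g j) + T τ (g j) u ≤ T τ v u + p.d / 2
    rw [V5.T_comm τ v (g (j + 1)), V5.T_comm τ (g j) u, V5.T_comm τ v u, Sym2.eq_swap]
    linarith
  · show p.hi < τ s(g (j + 1), g j)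
    rw [Sym2.eq_swap]
    exact q1

end Pool.Agent.Lib.T3Q
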