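import Pool.Agent.Lib.T3Q.Blue
import Pool.Agent.Lib.T3S.B_RESET

/-! Row RES inside the tube. -/

namespace Pool.Agent.Lib.T3Q

open MeasureTheory ProbabilityTheory Filter Topology Finset Pool.Agent.Lib.V3
open Pool.Agent.Lib.V5 (SW T Sys)
open Pool.Agent.Lib.T3X (Pth Dz bl near)
open Pool.Agent.Lib.T3S (Tb Qt Ok Gain Lin Adm Lig Tu Sh)
open scoped NNReal ENNReal

namespace RES

lemma apart {u y z y' z' : V} {w i j L ρ : ℕ} (hy : Sh u w i y) (hz : Sh u w j z)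
    (hy' : n1 (y' - y) ≤ 4 * ρ) (hz' : n1 (z' - z) ≤ 4 * ρ) (hij : i + 2 ≤ j)
    (hL : 2 * L + 8 * ρ ≤ w) : Disjoint (near z' L) (near y' L) := by
  refine T3X.near_disjoint ?_
  have h1 : (i + 1) * w + (2 * L + 8 * ρ) ≤ j * w :=
    calc (i + 1) * w + (2 * L + 8 * ρ) ≤ (i + 1) * w + w := Nat.add_le_add_left hL _
      _ = (i + 2) * w := by ring
      _ ≤ j * w := Nat.mul_le_mul_right _ hij
  have h2 : (((i + 1) * w : ℕ) : ℝ) + (2 * L + 8 * ρ) ≤ ((j * w : ℕ) : ℝ) := by exact_mod_cast h1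
  have h3 := n1_sub_comm z z'
  linarith [hy.2, hz.1, n1_tri u y z, n1_tri y y' z, n1_tri y' z' z]

end RES

open RES in
open Pool.Agent.Lib.V5 (T_tri T_meas) in
open Pool.Agent.Lib.T3S.RESET (Low lowT lowJ step parity) in
theorem bRES (hD : T3S.St_DICH) (hL : T3S.St_LOC) (hP : T3S.St_PLANT) (hS : St_SPLIT) :
    St_RES := by
  intro p j₀ K hK hLin g θ H φ ρ L M w hA hθq hθ hg hgH hφ hG hρ c3 c1 c2 hps c5 hM c4 c0 c6 u v t
    c7 hQ hO
  have hq := p.q_pos'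
  have hd := p.d_pos
  have hd' : p.d = p.hi - p.lo := rfl
  have a0 : 0 < θ := hA.1
  have a1 : θ ≤ 1 := hA.2.1
  have r0 : (0 : ℝ) ≤ ρ := Nat.cast_nonneg _
  have b1 : θ ^ 7 ≤ 1 / 2 := (pow_le_of_le_one a0.le a1 (by norm_num)).trans hθ
  have b2 : θ ^ 27 ≤ θ ^ 26 / 2 := by
    rw [pow_succ]
    nlinarith [pow_pos a0 26]
  have b3 : θ ^ 26 ≤ θ ^ 7 := pow_le_pow_of_le_one a0.le a1 (by norm_num)
  have b4 : θ ^ 26 ≤ θ ^ 7 * θ * p.q * θ ^ 17 :=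
    calc θ ^ 26 = θ ^ 7 * θ * θ * θ ^ 17 := by ring
      _ ≤ θ ^ 7 * θ * p.q * θ ^ 17 := by gcongr
  have b5 : 16 * p.ps ≤ θ ^ 7 * θ :=
    hps.trans (pow_succ θ 7 ▸ pow_le_pow_of_le_one a0.le a1 (by norm_num))
  rw [Nat.cast_add] at c7
  rcases hD p (j₀ + 2) u v M w (θ ^ 7) θ t H hM (by omega) (by positivity) b1 hA hQ hO b5
    (le_trans (le_add_of_nonneg_right (Nat.cast_nonneg _)) c7) c0 with
    h | ⟨S, y, z, A, B, hS', h⟩
  · refine le_trans (by linarith) (h.trans (p.pr_mono fun τ (hτ : T τ u v ≤ _) => ?_))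
    show T τ u v ≤ t - g
    linarith
  by_contra h2
  have key : ∀ i ∈ S, ∃ (c : V) (Φ W : Set Cfg), n1 (c - z i) ≤ 4 * ρ ∧ MeasurableSet Φ ∧
      IsLowerSet Φ ∧ MeasurableSet W ∧ IsLowerSet W ∧ Dep (near c L) Φ ∧
      φ / 2 ≤ p.pr Φ ∧ θ ^ 26 ≤ p.pr W ∧ Φ ∩ W ⊆ {τ | T τ u v ≤ t - g} := by
    intro i hi
    obtain ⟨-, iM, adj, -, shz, qA, qB, hAB, -, oB⟩ := h i hi
    have d1 : (((i + 1) * w : ℕ) : ℝ) ≤ (((M + 1) * w : ℕ) : ℝ) :=
      Nat.cast_le.2 (Nat.mul_le_mul_right _ (Nat.succ_le_succ iM))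
    have d3 : ((6 * ρ : ℕ) : ℝ) ≤ n1 (v - z i) := by
      linarith [shz.2, n1_tri u (z i) v]
    have l1 := (lowT qA.2).inter (lowJ p.toPar s(y i, z i)) hq.le
    rcases hS p j₀ K hK hLin (z i) v θ (B i) H ρ hA hθq hθ hρ c1 c2 hps d3 (pow_succ θ 7 ▸ qB)
      oB with
      h' | ⟨z₀, y₀, γ, A', W, e0, e1, e2, g1, g2, qA', oA', w1, w2, w3, w4⟩
    · refine absurd (le_trans ?_ ((l1.inter (lowT h') (by positivity)).2.2.trans
        (p.pr_mono ?_))) h2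
      · linarith [pow_pos a0 26]
      · rintro τ ⟨⟨k1, k2⟩, k3⟩
        have k1' : T τ u (y i) ≤ A i := k1
        have k3' : T τ (z i) v ≤ B i - H + p.d / 2 := k3
        show T τ u v ≤ t - g
        linarith [step adj k2, T_tri τ u (y i) v, T_tri τ (y i) (z i) v]
    · have e3 := hG z₀ y₀ _ _ e1 g1 g2 qA' oA'
      rw [pow_zero, mul_one] at e3
      have e4 := (hLin z₀ y₀ _ (qA'.1.trans g2)).trans (mul_le_mul_of_nonneg_left e2 hK.le)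
      obtain ⟨Φ, m1, m2, m3, m4, m5⟩ := hL p z₀ y₀ (A' - g + p.d / 2) L (by linarith)
      have e5 : p.pr {τ | T τ z₀ y₀ ≤ A' - g} ≤ p.pr {τ | T τ z₀ y₀ < A' - g + p.d / 2} :=
        p.pr_mono fun τ (hτ : T τ z₀ y₀ ≤ A' - g) =>
          show T τ z₀ y₀ < A' - g + p.d / 2 by linarith
      have l2 := l1.inter (⟨w1, w2, w3⟩ : Low p.toPar (θ ^ 17) W) (by positivity)
      refine ⟨z₀, Φ, _, e0, m1, m2, l2.1, l2.2.1, m3, by linarith,
        b4.trans l2.2.2, ?_⟩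
      rintro τ ⟨k0, ⟨k1, k2⟩, k3⟩
      have k1' : T τ u (y i) ≤ A i := k1
      show T τ u v ≤ t - g
      linarith [m4 τ k0, w4 τ k3, step adj k2, T_tri τ u (y i) v, T_tri τ (y i) (z i) v]
  choose! c Φ W hΦ using key
  obtain ⟨S₀, sub, hc0, hsep⟩ := parity S
  refine h2 (b2.trans (hP p.toPar ℕ S₀ Φ W _ (fun i => near (c i) L) _ (φ / 2) (by positivity)
    (by positivity) (measurableSet_le (T_meas u v) measurable_const)
    (fun i hi => (hΦ i (sub hi)).2) (fun i hi j hj hij => ?_) ?_))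
  · rcases lt_or_gt_of_ne hij with h3 | h3
    · exact (apart (h i (sub hi)).2.2.2.2.1 (h j (sub hj)).2.2.2.2.1 (hΦ i (sub hi)).1
        (hΦ j (sub hj)).1 (hsep i hi j hj h3) c4).symm
    · exact apart (h j (sub hj)).2.2.2.2.1 (h i (sub hi)).2.2.2.2.1 (hΦ j (sub hj)).1
        (hΦ i (sub hi)).1 (hsep j hj i hi h3) c4
  · have x1 : (M : ℝ) ≤ 4 * S₀.card := by exact_mod_cast (by omega : M ≤ 4 * S₀.card)
    have x2 := mul_le_mul_of_nonneg_right (mul_le_mul_of_nonneg_left x1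
      (pow_pos a0 52).le) hφ.le
    have x3 : (θ ^ 26) ^ 2 = θ ^ 52 := by ring
    rw [x3]
    linarith

end Pool.Agent.Lib.T3Q
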