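import Pool.Agent.Lib.T3Q.Blue
import Pool.Agent.Lib.T3S.B_SEG

/-! Row SEG1: the crossing of the first shell before the first exit, dimension three. -/

namespace Pool.Agent.Lib.T3Q

open Finset SimpleGraph Pool.Agent.Lib.V3
open Pool.Agent.Lib.V5 (SW T)
open Pool.Agent.Lib.T3X (exists_lt near)

theorem bSEG1 (hKIT : St_KIT) : St_SEG1 := by
  intro τ Γ u v w s hw hs hv
  classical
  obtain ⟨q, hp, hq⟩ := exists_lt (τ := τ) (u := u) (v := v) (lt_add_of_pos_right _ hs)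
  have w1 : (1 : ℝ) ≤ w := by exact_mod_cast hw
  have e : ((2 * w : ℕ) : ℝ) = 2 * w := by push_cast; ring
  have e1 : ((1 * w : ℕ) : ℝ) = w := by rw [one_mul]
  have e' : (((1 + 1) * w : ℕ) : ℝ) = 2 * w := e
  rw [e] at hv
  have h0 : n1 (q.getVert 0 - u) ≤ (w : ℝ) := by
    rw [Walk.getVert_zero, sub_self, n1_zero]; linarith
  have ex : ∃ j, 2 * (w : ℝ) - 1 < n1 (q.getVert j - u) :=
    ⟨q.length, by rw [Walk.getVert_length]; linarith⟩
  obtain ⟨b, hb⟩ : ∃ b, b = Nat.find ex := ⟨_, rfl⟩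
  have b1 : 2 * (w : ℝ) - 1 < n1 (q.getVert b - u) := hb ▸ Nat.find_spec ex
  have b2 : b ≤ q.length :=
    hb ▸ Nat.find_min' ex (by rw [Walk.getVert_length]; linarith)
  have b3 : ∀ j, j ≤ b → n1 (q.getVert j - u) ≤ 2 * (w : ℝ) := by
    intro j hj
    rcases j with _ | j
    · linarith
    · have h1 := not_lt.1 (Nat.find_min ex (show j < Nat.find ex by omega))
      have h2 := T3S.SEG.n1_le u q j 1 (by omega)
      push_cast at h2
      linarith
  set t := Nat.findGreatest (fun j => n1 (q.getVert j - u) ≤ (w : ℝ)) b with ht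
  have t1 : t ≤ b := Nat.findGreatest_le _
  have t2 : n1 (q.getVert t - u) ≤ (w : ℝ) :=
    Nat.findGreatest_spec (P := fun j => n1 (q.getVert j - u) ≤ (w : ℝ)) (Nat.zero_le _) h0
  have t3 : ∀ j, t < j → j ≤ b → (w : ℝ) < n1 (q.getVert j - u) := fun j h1 h2 =>
    not_le.1 (Nat.findGreatest_is_greatest (P := fun j => n1 (q.getVert j - u) ≤ (w : ℝ)) h1 h2)
  have t4 : t + w ≤ b := by
    obtain ⟨m, hm⟩ := Nat.exists_eq_add_of_le t1
    have h1 := T3S.SEG.n1_le u q t m (by omega)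
    rw [← hm] at h1
    have h2 : (w : ℝ) < ((m + 1 : ℕ) : ℝ) := by push_cast; linarith
    have h3 : w < m + 1 := by exact_mod_cast h2
    omega
  refine ⟨fun j => q.getVert (t + 1 + j), ⟨fun j hj => ?_, fun a a' ha ha' h => ?_⟩,
    fun j hj => ⟨?_, ?_⟩, fun j hj => ?_⟩
  · exact q.adj_getVert_succ (i := t + 1 + j) (by omega)
  · have := hp.getVert_injOn (show t + 1 + a ≤ q.length by omega)
      (show t + 1 + a' ≤ q.length by omega) h
    omega
  · rw [e1]
    exact t3 _ (by omega) (by omega)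
  · rw [e']
    exact b3 _ (by omega)
  · have a0 := T3S.SEG.T_le_sum (mk (near u ((2 * w : ℕ) : ℝ))ᶜ Γ τ) q
      (Nat.zero_le (t + 1 + j)) (by omega)
    have a3 : ∑ i ∈ Ico 0 (t + 1 + j),
        (mk (near u ((2 * w : ℕ) : ℝ))ᶜ Γ τ s(q.getVert i, q.getVert (i + 1)) : ℝ) =
        ∑ i ∈ Ico 0 (t + 1 + j), (τ s(q.getVert i, q.getVert (i + 1)) : ℝ) := by
      refine sum_congr rfl fun i hi => ?_
      have hi' := (mem_Ico.1 hi).2
      have hm' : s(q.getVert i, q.getVert (i + 1)) ∈ near u ((2 * w : ℕ) : ℝ) := fun y hy => by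
        rw [e]
        rcases Sym2.mem_iff.1 hy with rfl | rfl
        · exact b3 _ (by omega)
        · exact b3 _ (by omega)
      rw [hKIT.2.2.1 _ Γ τ _ (Set.notMem_compl_iff.2 hm')]
    have a1 := T3S.SEG.T_le_sum τ q (Nat.zero_le (t + 1 + j)) (by omega)
    have a2 := T3S.SEG.T_le_sum τ q (a := t + 1 + j + 1) (b := q.length) (by omega) le_rfl
    rw [Walk.getVert_zero] at a0 a1
    rw [Walk.getVert_length] at a2
    have a4 := sum_Ico_succ_top (Nat.zero_le (t + 1 + j))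
      (fun j => (τ s(q.getVert j, q.getVert (j + 1)) : ℝ))
    have a5 := sum_Ico_consecutive (fun j => (τ s(q.getVert j, q.getVert (j + 1)) : ℝ))
      (Nat.zero_le (t + 1 + j + 1)) (show t + 1 + j + 1 ≤ q.length by omega)
    rw [T3S.SEG.SW_eq, range_eq_Ico] at hq
    show T τ u (q.getVert (t + 1 + j)) + τ s(q.getVert (t + 1 + j), q.getVert (t + 1 + j + 1)) +
      T τ (q.getVert (t + 1 + j + 1)) v ≤ T τ u v + s ∧
      T (mk (near u ((2 * w : ℕ) : ℝ))ᶜ Γ τ) u (q.getVert (t + 1 + j)) +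
        τ s(q.getVert (t + 1 + j), q.getVert (t + 1 + j + 1)) +
        T τ (q.getVert (t + 1 + j + 1)) v ≤ T τ u v + s
    constructor <;> linarith

end Pool.Agent.Lib.T3Q
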