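import Pool.Agent.Lib.T3Q.Blue
import Pool.Agent.Lib.T3S.B_SEG

/-! Row SEG2: the piece of a nearly optimal path after its last visit to the inner ball. -/

namespace Pool.Agent.Lib.T3Q

open Finset SimpleGraph Pool.Agent.Lib.V3
open Pool.Agent.Lib.V5 (SW T)
open Pool.Agent.Lib.T3X (exists_lt)

theorem bSEG2 (hKIT : St_KIT) : St_SEG2 := by
  intro τ B Γ u v w s hw hs hB hv
  classical
  obtain ⟨q, hp, hq⟩ := exists_lt (τ := τ) (u := u) (v := v) (lt_add_of_pos_right _ hs)
  have h0 : n1 (q.getVert 0 - u) ≤ w := by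
    rw [Walk.getVert_zero, sub_self, n1_zero]
    positivity
  set t := Nat.findGreatest (fun j => n1 (q.getVert j - u) ≤ (w : ℝ)) q.length with ht
  have t1 : t ≤ q.length := Nat.findGreatest_le _
  have t2 : n1 (q.getVert t - u) ≤ w :=
    Nat.findGreatest_spec (P := fun j => n1 (q.getVert j - u) ≤ (w : ℝ)) (Nat.zero_le _) h0
  have t3 : ∀ j, t < j → j ≤ q.length → (w : ℝ) < n1 (q.getVert j - u) := fun j h1 h2 =>
    not_le.1 (Nat.findGreatest_is_greatest (P := fun j => n1 (q.getVert j - u) ≤ (w : ℝ)) h1 h2)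
  have t4 : t + w ≤ q.length := by
    obtain ⟨j, hj⟩ := Nat.exists_eq_add_of_le t1
    have h1 := T3S.SEG.n1_le u q t j hj.ge
    rw [← hj, Walk.getVert_length] at h1
    push_cast at hv
    have h2 : (w : ℝ) ≤ j := by linarith
    have h3 : w ≤ j := by exact_mod_cast h2
    omega
  refine ⟨fun j => q.getVert (t + 1 + j), ⟨fun j hj => ?_, fun a b ha hb h => ?_⟩, fun j hj =>
    ⟨?_, ?_⟩, fun j hj => ?_⟩
  · exact q.adj_getVert_succ (i := t + 1 + j) (by omega)
  · have := hp.getVert_injOn (show t + 1 + a ≤ q.length by omega)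
      (show t + 1 + b ≤ q.length by omega) h
    omega
  · rw [one_mul]
    exact t3 _ (by omega) (by omega)
  · have h1 := T3S.SEG.n1_le u q t (1 + j) (by omega)
    rw [← add_assoc] at h1
    have h2 : ((1 + j : ℕ) : ℝ) ≤ w := by exact_mod_cast (by omega : 1 + j ≤ w)
    push_cast at h1 h2 ⊢
    linarith
  · have a1 := T3S.SEG.T_le_sum τ q (Nat.zero_le (t + 1 + j)) (by omega)
    have a2 := T3S.SEG.T_le_sum τ q (a := t + 1 + j + 1) (b := q.length) (by omega) le_rfl
    have a3 := T3S.SEG.T_le_sum (mk B Γ τ) q (a := t + 1 + j + 1) (b := q.length) (by omega) le_rfl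
    have a6 : ∑ k ∈ Ico (t + 1 + j + 1) q.length,
        (mk B Γ τ s(q.getVert k, q.getVert (k + 1)) : ℝ) =
        ∑ k ∈ Ico (t + 1 + j + 1) q.length, (τ s(q.getVert k, q.getVert (k + 1)) : ℝ) := by
      refine sum_congr rfl fun k hk => ?_
      rw [mem_Ico] at hk
      rw [hKIT.2.2.1 B Γ τ _ fun h => ?_]
      have h1 := hB h (q.getVert k) (Sym2.mem_mk_left _ _)
      have h2 := t3 k (by omega) hk.2.le
      linarith
    rw [a6, Walk.getVert_length] at a3
    rw [Walk.getVert_zero] at a1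
    rw [Walk.getVert_length] at a2
    have a4 := sum_Ico_succ_top (Nat.zero_le (t + 1 + j))
      (fun j => (τ s(q.getVert j, q.getVert (j + 1)) : ℝ))
    have a5 := sum_Ico_consecutive (fun j => (τ s(q.getVert j, q.getVert (j + 1)) : ℝ))
      (Nat.zero_le (t + 1 + j + 1)) (show t + 1 + j + 1 ≤ q.length by omega)
    rw [T3S.SEG.SW_eq, range_eq_Ico] at hq
    constructor
    · show T τ u (q.getVert (t + 1 + j)) + τ s(q.getVert (t + 1 + j), q.getVert (t + 1 + j + 1)) +
        T τ (q.getVert (t + 1 + j + 1)) v ≤ T τ u v + s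
      linarith
    · show T τ u (q.getVert (t + 1 + j)) + τ s(q.getVert (t + 1 + j), q.getVert (t + 1 + j + 1)) +
        T (mk B Γ τ) (q.getVert (t + 1 + j + 1)) v ≤ T τ u v + s
      linarith

end Pool.Agent.Lib.T3Q
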