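import Pool.Agent.Lib.T3Q.Blue

/-! Row SUMC: the martingale bound with the constants, inside the tube. -/

namespace Pool.Agent.Lib.T3Q

open MeasureTheory ProbabilityTheory Filter Topology Finset Pool.Agent.Lib.V3
open Pool.Agent.Lib.V5 (SW T Sys)
open Pool.Agent.Lib.T3X (Pth Dz bl near)
open Pool.Agent.Lib.T3S (Tb Qt Ok Gain Lin Adm Lig Tu Sh)
open scoped NNReal ENNReal

namespace SUMC

lemma arith {c Y w ε σ π θ H n X : ℝ} (c0 : 0 < c) (Y0 : 0 ≤ Y) (w2 : 2 ≤ w) (ε0 : 0 < ε)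
    (σ0 : 0 < σ) (π0 : 0 ≤ π) (H0 : 0 < H) (hA : (2560 * H) ^ 2 * θ * Y ≤ c ^ 2)
    (hσ : σ * π ≤ ε ^ 2 * θ) (hn : n ≤ 100 * w ^ 2 * Y)
    (key : c / 2 * X ≤ c * w * ε / (256 * H ^ 2 * σ) / 2 * (H ^ 2 * σ) +
      π / (2 * (c * w * ε / (256 * H ^ 2 * σ))) * n) : X ≤ ε * (w - 1) / 64 := by
  have w0 : 0 < w := by linarith
  have e3 := mul_le_mul_of_nonneg_left hn
    (show 0 ≤ π / (2 * (c * w * ε / (256 * H ^ 2 * σ))) by positivity)
  have e4 : π / (2 * (c * w * ε / (256 * H ^ 2 * σ))) * (100 * w ^ 2 * Y) =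
      w / (512 * c * ε) * ((2560 * H) ^ 2 * Y * (σ * π)) := by
    field_simp
    ring
  have e5 : c * w * ε / (256 * H ^ 2 * σ) / 2 * (H ^ 2 * σ) = c * (w * ε) / 512 := by
    field_simp
    ring
  have e6 : (2560 * H) ^ 2 * Y * (σ * π) ≤ ε ^ 2 * c ^ 2 := by
    have k1 := mul_le_mul_of_nonneg_left hσ (mul_nonneg (sq_nonneg (2560 * H)) Y0)
    have k2 := mul_le_mul_of_nonneg_left hA (sq_nonneg ε)
    linarith
  have e7 := mul_le_mul_of_nonneg_left e6 (show 0 ≤ w / (512 * c * ε) by positivity)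
  have e8 : w / (512 * c * ε) * (ε ^ 2 * c ^ 2) = c * (w * ε) / 512 := by
    field_simp
  have e9 : X ≤ w * ε / 128 :=
    le_of_mul_le_mul_left (a := c / 2) (by linarith) (by positivity)
  have := mul_le_mul_of_nonneg_right w2 ε0.le
  linarith

end SUMC

theorem bSUMC (hSUM : St_SUM) : St_SUMC := by
  intro p B Γ Z o x a π σ ε θ t H w I hA σ0 ε0 π0 hσ hw hc hZ hI hR
  obtain ⟨-, -, H0, h⟩ := hA
  have w2 : (2 : ℝ) ≤ w := by exact_mod_cast hw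
  have c0 : 0 < p.q * p.d := mul_pos p.q_pos' p.d_pos
  have key := hSUM p.toPar p.lo p.hi (NNReal.coe_lt_coe.1 (sub_pos.1 p.d_pos)) B Γ Z o x a π
    (H ^ 2 * σ) t H (p.q * p.d * w * ε / (256 * H ^ 2 * σ)) I (by positivity) H0.le hZ hI hR
  rw [Nat.cast_sub (by omega), Nat.cast_one]
  exact SUMC.arith c0 (mul_nonneg (zero_le_one.trans p.one_le_C) (zero_le_one.trans p.one_le_X))
    w2 ε0 σ0 π0 H0 h hσ hc key

end Pool.Agent.Lib.T3Q
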