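import Pool.Agent.Lib.T3Q.Blue

/-! Row T1: the outside decides much, the near leg has a high level. -/

namespace Pool.Agent.Lib.T3Q

open MeasureTheory ProbabilityTheory Filter Topology Finset Pool.Agent.Lib.V3
open Pool.Agent.Lib.V5 (SW T Sys)
open Pool.Agent.Lib.T3X (Pth Dz bl near)
open Pool.Agent.Lib.T3S (Tb Qt Ok Gain Lin Adm Lig Tu Sh)
open scoped NNReal ENNReal

theorem bT1 (hKIT : St_KIT) (hIND : St_IND) (hQ : T3S.St_QUANT) (hSEG1 : St_SEG1)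
    (hONE : St_ONE) : St_T1 := by
  classical
  intro p j K hK hL Z u v α κ θ t H w hA hα hα1 hκ hκ1 hw hd hs hO hp hZ hoff h1 h2
  obtain ⟨k1, k2, -, k4, k5, k6, -, -, -, -, -, k12, k13⟩ := hKIT
  by_cases hG : κ * α / 4 ≤ p.pr {τ | T τ u v ≤ t - H + p.d / 2}
  · exact Or.inl hG
  right
  have hθ := hA.1
  have hθ1 := hA.2.1
  have hH := hA.2.2.1
  have hdp : 0 < p.d := p.d_pos
  have hdh : p.d ≤ p.hi := p.d_le
  have hp0 := p.ps_nonneg
  have hκθ : κ * θ ≤ 1 := mul_le_one₀ hκ1 hθ.le hθ1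
  have hκα : 0 < κ * α := mul_pos hκ hα
  have hκθ0 : 0 < κ * θ := mul_pos hκ hθ
  have hκαθ : κ * α * θ ≤ 1 := mul_le_one₀ (mul_le_one₀ hκ1 hα.le hα1) hθ.le hθ1
  have hκαθ0 : 0 < κ * α * θ := mul_pos hκα hθ
  choose a ha using fun y => hQ p.toPar u y (κ * θ / 2) (by linarith) (by linarith)
  choose b hb using fun z => hQ p.toPar v z (κ * α * θ / 2) (by linarith) (by linarith)
  obtain ⟨ps, hps⟩ : ∃ ps, ps = p.pr ({τ | T τ u v < t} ∩ Z) := ⟨_, rfl⟩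
  rw [← hps] at h1 h2
  have hps0 : 0 < ps := by linarith
  obtain ⟨B, hB⟩ : ∃ B, B = near u ((2 * w : ℕ) : ℝ) := ⟨_, rfl⟩
  obtain ⟨Γ, hΓ1, hΓ2⟩ : ∃ Γ : ℝ≥0, t + p.d < Γ ∧ K * ((2 * w : ℕ) : ℝ) ≤ Γ := by
    refine ⟨(max (t + p.d + 1) (K * ((2 * w : ℕ) : ℝ))).toNNReal, ?_, ?_⟩
    · exact lt_of_lt_of_le (lt_of_lt_of_le (lt_add_one _) (le_max_left _ _))
        (Real.le_coe_toNNReal _)
    · exact (le_max_right _ _).trans (Real.le_coe_toNNReal _)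
  have hsh : ∀ y, Sh u w 1 y → n1 (y - u) ≤ ((2 * w : ℕ) : ℝ) := fun y hy => hy.2
  have hmem : ∀ y z, Sh u w 1 y → Sh u w 1 z → s(y, z) ∈ B := by
    intro y z hy hz
    rw [hB]
    intro x hx
    rcases Sym2.mem_iff.1 hx with rfl | rfl
    · exact hsh _ hy
    · exact hsh _ hz
  have hseg := fun τ => hSEG1 τ Γ u v w (p.d / 2) (by omega) (half_pos hdp) hd
  rw [← hB] at hseg hoff
  have c1 : ∀ y, Sh u w 1 y → p.pr ({τ | T (mk Bᶜ Γ τ) u y < a y} ∩ Z) ≤ θ * ps := by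
    intro y hy
    have e1 : a y ≤ Γ := by
      have := hL u y (a y) ((ha y).1.trans (by linarith))
      exact this.trans ((mul_le_mul_of_nonneg_left (hsh y hy) hK.le).trans hΓ2)
    have e2 := (k6 p.toPar Bᶜ Γ u y (a y) e1).trans (ha y).1
    have e3 := hIND p.toPar B {τ | T (mk Bᶜ Γ τ) u y < a y} Z
      (measurableSet_lt ((V5.T_meas u y).comp (k2 Bᶜ Γ)) measurable_const) hZ
      (fun τ τ' h hτ => by
        have := k4 Bᶜ Γ τ τ' h
        simpa only [Set.mem_ofPred_eq, this] using hτ) hoff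
    have e4 := mul_le_mul_of_nonneg_right e2 (p.pr_nonneg Z)
    have e5 := mul_le_mul_of_nonneg_left h2 hθ.le
    calc _ = _ := e3
      _ ≤ κ * θ / 2 * p.pr Z := e4
      _ = θ * (κ / 2 * p.pr Z) := by ring
      _ ≤ _ := e5
  have c2 : ∀ z, Sh u w 1 z → p.pr ({τ | T (mk ∅ Γ τ) v z < b z} ∩ Z) ≤ θ * ps := by
    intro z _
    simp only [k1]
    have e1 := (p.pr_mono (Set.inter_subset_left (s := {τ | T τ v z < b z}) (t := Z))).trans
      (hb z).1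
    have e2 := mul_le_mul_of_nonneg_left h1 hθ.le
    calc _ ≤ _ := e1
      _ = θ * (κ * α / 2) := by ring
      _ ≤ _ := e2
  have c3 : ps / 2 ≤ p.pr (Wn (p.d / 2) u v t H ∩ Z) := by
    have hsub : {τ : Cfg | T τ u v < t} ∩ Z ⊆
        (Wn (p.d / 2) u v t H ∩ Z) ∪ {τ | T τ u v ≤ t - H + p.d / 2} := by
      rintro τ ⟨hτ, hτZ⟩
      by_cases h : T τ u v ≤ t - H + p.d / 2
      · exact Or.inr h
      · exact Or.inl ⟨⟨(not_le.1 h).le, le_of_lt hτ⟩, hτZ⟩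
    have e1 := (p.pr_mono hsub).trans (p.pr_union_le _ _)
    rw [← hps] at e1
    linarith [not_le.1 hG]
  obtain ⟨τ, y, z, t1, t2, t3, t4, t5, t6, t7, t8, t9⟩ := hONE p Bᶜ ∅ Γ Z u v a b (θ * ps) ps
    (θ * ps) ps ps θ t H w
    (fun τ y z => T (mk Bᶜ Γ τ) u y + τ s(y, z) + T τ z v ≤ T τ u v + p.d / 2) hA hps0 hps0 hps0
    (mul_pos hθ hps0).le (mul_pos hθ hps0).le (le_of_eq (by ring)) (le_of_eq (by ring)) hw hZ
    (hs.trans h1) hd (ok_anti (by omega) hO)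
    (by linarith [mul_le_of_le_one_right hκα.le hθ1])
    (fun y z _ hy hz => ⟨fun h => h (hmem y z hy hz), Set.notMem_empty _,
      k13 B Z _ hoff (hmem y z hy hz)⟩) c1 c2
    (k12 p.toPar Bᶜ Z u v t H ps hH.le hZ hps.ge) (k12 p.toPar ∅ Z u v t H ps hH.le hZ hps.ge)
    c3 hseg
  have t5' : (p.hi : ℝ) < τ s(y, z) := NNReal.coe_lt_coe.2 t5
  rw [k1] at t9
  have z0 := V5.T_nonneg τ z v
  have o1 : T (mk Bᶜ Γ τ) u y < T (mk Bᶜ Γ τ) u z := by
    by_contra hc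
    have e1 := (k5 Bᶜ Γ τ u z).trans (not_lt.1 hc)
    have e2 := V5.T_tri τ u z v
    rcases min_le_iff.1 e1 with e | e <;> linarith
  have o2 : T τ v z < T τ v y := by
    by_contra hc
    have e1 := not_lt.1 hc
    have e2 := V5.T_tri τ u y v
    rw [V5.T_comm τ v y, V5.T_comm τ v z] at e1
    linarith
  have f1 := t8 o1
  have f2 := t9 o2
  rw [V5.T_comm τ v z] at f2
  have hB' : Qt p.toPar (κ * α * θ / 2) z v (b z) := by
    have := hb z
    simpa only [Qt, V5.T_comm _ v z] using this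
  have g1 : κ * α * θ ≤ κ * θ :=
    mul_le_mul_of_nonneg_right (mul_le_of_le_one_right hκ.le hα1) hθ.le
  have g2 : a y + p.hi + b z ≤ t + p.d / 2 := by linarith
  have g3 := ok_legs hO t2 ((hsh y t3).trans hd) ((hsh z t4).trans hd) (ha y) hB'
    (by linarith) (by linarith) g2
  exact ⟨y, z, a y, b z, t2, t3, t4, ha y, hB', g2, g3.1, g3.2⟩

end Pool.Agent.Lib.T3Q
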