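import Pool.Agent.Lib.T3Q.Blue

/-! Row T2: the outside decides little, the far leg has a high level. -/

namespace Pool.Agent.Lib.T3Q

open MeasureTheory ProbabilityTheory Filter Topology Finset Pool.Agent.Lib.V3
open Pool.Agent.Lib.V5 (SW T Sys)
open Pool.Agent.Lib.T3X (Pth Dz bl near)
open Pool.Agent.Lib.T3S (Tb Qt Ok Gain Lin Adm Lig Tu Sh)
open scoped NNReal ENNReal

theorem bT2 (hK : St_KIT) (hQ : T3S.St_QUANT) (hS : St_SEG2) (hO : St_ONE) : St_T2 := by
  intro p j K hK0 hLin B u v α κ θ t H w hA hα hα2 hκ hκ1 hl hw hB hd hs hq hok hps hR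
  obtain ⟨k1, -, -, -, k5, k6, -, -, -, -, -, k12, -⟩ := hK
  by_cases hG : α / 2 ≤ p.pr {τ | T τ u v ≤ t - H + p.d / 2}
  · exact Or.inl hG
  right
  have hθ := hA.1
  have h0 : 0 < α * θ := mul_pos hα hθ
  have h1 : α * θ < 1 := by nlinarith [hA.2.1]
  have h2 : 0 < α * θ / κ := div_pos h0 hκ
  have h3 : α * θ ≤ α * θ / κ := le_div_self h0.le hκ hκ1
  have h4 : α * θ ≤ α := mul_le_of_le_one_right hα.le hA.2.1
  choose a ha using fun y => hQ p.toPar u y (α * θ) h0 h1
  choose b hb using fun z => hQ p.toPar v z (α * θ / κ) h2 (by linarith)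
  have hd0 : 0 < p.d := p.d_pos
  have hhi : p.d ≤ p.hi := p.d_le
  obtain ⟨Γ, hΓ1, hΓ2⟩ : ∃ Γ : ℝ≥0, t + p.d ≤ Γ ∧ K * (n1 (u - v) + 2 * w) ≤ Γ :=
    ⟨(max (t + p.d) (K * (n1 (u - v) + 2 * w))).toNNReal,
      (le_max_left _ _).trans (Real.le_coe_toNNReal _),
      (le_max_right _ _).trans (Real.le_coe_toNNReal _)⟩
  obtain ⟨τ, y, z, c1, c2, c3, c4, c5, c6, c7, c8, c9⟩ := hO p ∅ B Γ Set.univ u v a b
    (α * θ) α (α * θ / κ) (κ * α) α θ t H w
    (fun τ y z => T τ u y + τ s(y, z) + T (mk B Γ τ) z v ≤ T τ u v + p.d / 2) hA hα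
    (mul_pos hκ hα) hα h0.le h2.le (le_of_eq (by ring)) (le_of_eq (by field_simp)) hw
    MeasurableSet.univ hs hd (ok_anti (by omega) hok) (hps.trans h4)
    (fun y z _ hy _ => ⟨Set.notMem_empty _, fun h => by
      have e1 := hB h y (Sym2.mem_mk_left y z)
      have e2 := hy.1
      rw [one_mul] at e2
      linarith, fun _ _ => Iff.rfl⟩)
    (fun y _ => by simpa only [k1, Set.inter_univ] using (ha y).1)
    (fun z hz => by
      rw [Set.inter_univ]
      refine (k6 p.toPar B Γ v z (b z) ?_).trans (hb z).1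
      have e1 := hLin v z (b z) ((hb z).1.trans hl)
      have e2 := n1_tri v u z
      have e3 := hz.2
      push_cast at e3
      refine e1.trans (le_trans (mul_le_mul_of_nonneg_left ?_ hK0.le) hΓ2)
      linarith)
    (k12 p.toPar ∅ Set.univ u v t H α hA.2.2.1.le MeasurableSet.univ
      (by rw [Set.inter_univ]; exact hq.1)) hR
    (by
      rw [Set.inter_univ]
      have hsub : {τ : Cfg | T τ u v ≤ t} ⊆
          {τ | T τ u v ≤ t - H + p.d / 2} ∪ Wn (p.d / 2) u v t H := fun τ hτ => by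
        by_cases h : T τ u v ≤ t - H + p.d / 2
        · exact Or.inl h
        · exact Or.inr ⟨le_of_not_ge h, hτ⟩
      have e1 := (p.pr_mono hsub).trans (p.pr_union_le _ _)
      linarith [hq.2, not_le.1 hG])
    (fun τ => hS τ B Γ u v w (p.d / 2) (by omega) (half_pos hd0) hB hd)
  rw [k1] at c8
  have c5' : (p.hi : ℝ) < τ s(y, z) := NNReal.coe_lt_coe.2 c5
  have o1 : a y ≤ T τ u y := c8 (by
    by_contra h
    have := V5.T_tri τ u z v
    linarith [not_lt.1 h])
  have o2 : b z ≤ T (mk B Γ τ) z v := by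
    rw [V5.T_comm _ z v] at c7 ⊢
    refine c9 ?_
    by_contra h
    have e1 := (k5 B Γ τ v y).trans (not_lt.1 h)
    have e2 := V5.T_nonneg τ u y
    have e3 := V5.T_tri τ u y v
    rw [V5.T_comm τ y v] at e3
    rcases min_le_iff.1 e1 with e4 | e4 <;> linarith
  have hbz : Qt p.toPar (α * θ / κ) z v (b z) := by
    have := hb z
    simpa only [Qt, V5.T_comm _ v z] using this
  have hsum : a y + p.hi + b z ≤ t + p.d / 2 := by linarith
  have hps' : p.ps < α * θ := by linarith [p.ps_nonneg]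
  exact ⟨y, z, a y, b z, c2, c3, c4, ha y, hbz, hsum,
    ok_legs hok c2 (c3.2.trans hd) (c4.2.trans hd) (ha y) hbz hps' (hps'.trans_le h3) hsum⟩

end Pool.Agent.Lib.T3Q
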