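import Pool.Agent.Lib.T3Q.All0
import Pool.Agent.Lib.T3Q.B_SUMC
import Pool.Agent.Lib.T3Q.B_GOOD
import Pool.Agent.Lib.T3Q.B_SEG1
import Pool.Agent.Lib.T3Q.B_SEG2
import Pool.Agent.Lib.T3Q.B_ONE
import Pool.Agent.Lib.T3Q.B_T1
import Pool.Agent.Lib.T3Q.B_T2
import Pool.Agent.Lib.T3Q.B_SPLIT
import Pool.Agent.Lib.T3Q.B_MONO
import Pool.Agent.Lib.T3Q.B_CONC
import Pool.Agent.Lib.T3Q.B_RES
import Pool.Agent.Lib.T3Q.B_STEP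
import Pool.Agent.Lib.T3Q.B_ITER
import Pool.Agent.Lib.T3Q.B_END
import Pool.Agent.Lib.T3Q.B_ARITH
import Pool.Agent.Lib.T3Q.B_TOPQ
import Pool.Agent.Lib.T3S.B_QUANT
import Pool.Agent.Lib.T3S.B_PEI
import Pool.Agent.Lib.T3S.B_SEG
import Pool.Agent.Lib.T3S.B_DET
import Pool.Agent.Lib.T3S.B_MART
import Pool.Agent.Lib.T3S.B_MARK
import Pool.Agent.Lib.T3S.B_DICH
import Pool.Agent.Lib.T3S.B_LOC
import Pool.Agent.Lib.T3S.B_PLANT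
import Pool.Agent.Lib.T3S.B_KESX
import Pool.Agent.Lib.T3S.B_GEO6
import Pool.Agent.Lib.T3S.B_CH6
import Pool.Agent.Lib.T3S.B_FASTX
import Pool.Agent.Lib.T3S.B_STRONG
import Pool.Agent.Lib.T3S.B_OFF
import Pool.Agent.Lib.T3S.B_COUNT
import Pool.Agent.Lib.T3S.B_POINT
import Pool.Agent.Lib.T3S.B_TUBE
import Pool.Agent.Lib.T3S.B_RATE
import Pool.Agent.Lib.T3S.B_FIN
import Pool.Agent.Lib.V5.All

/-! Assembly of the rows with fixed levels, dimension three. -/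

namespace Pool.Agent.Lib.T3Q

theorem st_DICH : T3S.St_DICH :=
  T3S.bDICH T3S.bQUANT T3S.bPEI (T3S.bDET T3S.bSEG) (T3S.bMARK T3S.bMART)

theorem st_ONE : St_ONE := bONE bKIT T3S.bPEI (bSUMC st_SUM) bPICK bGOOD

theorem st_SPLIT : St_SPLIT :=
  bSPLIT st_DICH st_CASE (bT1 bKIT st_IND T3S.bQUANT (bSEG1 bKIT) st_ONE)
    (bT2 bKIT T3S.bQUANT (bSEG2 bKIT) st_ONE)

theorem st_STEP : St_STEP :=
  bSTEP (bMONO T3S.bQUANT) (bCONC st_DICH)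
    (bRES st_DICH (T3S.bLOC T3S.bPEI) T3S.bPLANT st_SPLIT)

theorem st_CH6 : T3S.St_CH6 :=
  T3S.bCH6 (V5.bHALF5 (V5.bHALFA V3.bSUM)) (V5.bLOW5 V3.bSUM)
    (V5.bSTEP5 (V5.bCORE5 V3.bWIN (V5.bDEC5 V5.bSUN) V5.bMART5))
    (V5.bSTART5 (V5.bCUT (V5.bDEC5 V5.bSUN) V5.bLOW0)) V3.bCHAIN2

theorem st_TUBE : T3S.St_TUBE :=
  T3S.bTUBE (T3S.bPOINT T3S.bGEO6 st_CH6 (T3S.bFASTX T3S.bPLANT) T3S.bSTRONG T3S.bOFF) T3S.bCOUNT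

theorem st_TOP : T3S.St_TOP 2 :=
  bTOPQ T3S.bQUANT (bEND T3S.bLIN (bITER st_STEP)) st_TUBE bARITH

theorem st_RATE : T3S.St_RATE (1 / 2) := by
  have h := T3S.RATE.gen 2 (by norm_num) st_TOP
  rwa [Nat.cast_ofNat] at h

theorem st_FIN : T3S.St_FIN (1 / 2) :=
  T3S.bFIN V3.bPC V5.bKP V5.bPRE (T3S.bKESX T3S.bPEI) _ st_RATE

end Pool.Agent.Lib.T3Q
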