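import Pool.Agent.Lib.T3Q.Blue0

/-! Averaging a bounded function over the weights on a set of edges. -/

namespace Pool.Agent.Lib.T3Q

open MeasureTheory ProbabilityTheory Pool.Agent.Lib.V3

theorem bCOND (hSPL : St_SPL) : St_COND := by
  intro p B Ψ H hΨ hb
  have mp := hSPL p B
  have out : ∀ (σ τ : Cfg) (e : Sym2 V), e ∉ B → sp B σ τ e = τ e := fun _ _ _ h => if_neg h
  have inn : ∀ (σ τ : Cfg) (e : Sym2 V), e ∈ B → sp B σ τ e = σ e := fun _ _ _ h => if_pos h
  have hm : Measurable fun q : Cfg × Cfg => Ψ (sp B q.1 q.2) := hΨ.1.comp mp.measurable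
  have hi : ∀ τ, Integrable (fun σ => Ψ (sp B σ τ)) p.P := fun τ =>
    (hΨ.comp (g := fun σ => sp B σ τ) (mp.measurable.comp measurable_prodMk_right)).int p.P
  have h0 : ∀ τ, 0 ≤ -∫ σ, Ψ (sp B σ τ) ∂p.P := fun τ =>
    neg_nonneg.2 (integral_nonpos fun σ => (hb _).2)
  have h1 : ∀ τ, -∫ σ, Ψ (sp B σ τ) ∂p.P ≤ H := fun τ => by
    have := integral_mono (integrable_const (-H)) (hi τ) fun σ => (hb (sp B σ τ)).1
    rw [integral_const, probReal_univ, one_smul] at this
    linarith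
  refine ⟨fun τ => -∫ σ, Ψ (sp B σ τ) ∂p.P, ⟨?_, H, fun τ => ?_⟩, fun τ => ⟨h0 τ, h1 τ⟩,
    fun τ τ' h => ?_, fun Y hY hO => ?_⟩
  · exact (hm.stronglyMeasurable.integral_prod_left' (μ := p.P)).measurable.neg
  · rw [abs_of_nonneg (h0 τ)]; exact h1 τ
  · have e : ∀ σ, sp B σ τ = sp B σ τ' := fun σ => funext fun e => by
      by_cases he : e ∈ B
      · rw [inn _ _ _ he, inn _ _ _ he]
      · rw [out _ _ _ he, out _ _ _ he, h e he]
    simp only [e]
  · have hn := hΨ.mul hY
    have i1 := mp.integrable_comp_of_integrable (hn.int p.P)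
    have i2 := integral_prod_symm _ i1
    have e : ∀ σ τ, Y (sp B σ τ) = Y τ := fun σ τ => hO _ _ fun e he => out σ τ e he
    conv_lhs => rw [← mp.map_eq]
    rw [integral_map mp.measurable.aemeasurable hn.1.aestronglyMeasurable]
    refine i2.trans ?_
    simp only [Function.comp_apply, e, integral_mul_const, neg_mul, integral_neg, neg_neg]

end Pool.Agent.Lib.T3Q
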