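import Pool.Agent.Lib.T3Q.Blue0

/-! Splicing two independent configurations gives the product law. -/

namespace Pool.Agent.Lib.T3Q

open MeasureTheory ProbabilityTheory Pool.Agent.Lib.V3

namespace SPL

theorem sp_in {B : Set (Sym2 V)} (σ τ : Cfg) {e : Sym2 V} (h : e ∈ B) : sp B σ τ e = σ e :=
  if_pos h

theorem sp_out {B : Set (Sym2 V)} (σ τ : Cfg) {e : Sym2 V} (h : e ∉ B) : sp B σ τ e = τ e :=
  if_neg h

theorem meas (B : Set (Sym2 V)) : Measurable fun q : Cfg × Cfg => sp B q.1 q.2 := by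
  refine measurable_pi_lambda _ fun e => ?_
  by_cases h : e ∈ B
  · simp only [sp_in _ _ h]; exact (measurable_pi_apply e).comp measurable_fst
  · simp only [sp_out _ _ h]; exact (measurable_pi_apply e).comp measurable_snd

end SPL

theorem bSPL : St_SPL := by
  classical
  intro p B
  refine ⟨SPL.meas B, ?_⟩
  unfold Par.P
  refine Measure.eq_infinitePi _ fun s t ht => ?_
  have hm : MeasurableSet (Set.pi (s : Set (Sym2 V)) t) :=
    MeasurableSet.pi s.countable_toSet fun i _ => ht i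
  rw [Measure.map_apply (SPL.meas B) hm]
  have e : (fun q : Cfg × Cfg => sp B q.1 q.2) ⁻¹' Set.pi (s : Set (Sym2 V)) t =
      Set.pi ((s.filter (· ∈ B) : Finset (Sym2 V)) : Set (Sym2 V)) t ×ˢ
        Set.pi ((s.filter (fun e => ¬ e ∈ B) : Finset (Sym2 V)) : Set (Sym2 V)) t := by
    ext x
    simp only [Set.mem_preimage, Set.mem_pi, Finset.mem_coe, Set.mem_prod, Finset.mem_filter]
    constructor
    · exact fun h => ⟨fun e he => SPL.sp_in x.1 x.2 he.2 ▸ h e he.1,
        fun e he => SPL.sp_out x.1 x.2 he.2 ▸ h e he.1⟩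
    · intro h e he
      by_cases ha : e ∈ B
      · rw [SPL.sp_in _ _ ha]; exact h.1 e ⟨he, ha⟩
      · rw [SPL.sp_out _ _ ha]; exact h.2 e ⟨he, ha⟩
  rw [e, Measure.prod_prod, Measure.infinitePi_pi _ fun i _ => ht i,
    Measure.infinitePi_pi _ fun i _ => ht i, Finset.prod_filter_mul_prod_filter_not]

end Pool.Agent.Lib.T3Q
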