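import Pool.Agent.Lib.T3Q.B_KIT
import Pool.Agent.Lib.T3Q.B_SPL
import Pool.Agent.Lib.T3Q.B_COND
import Pool.Agent.Lib.T3Q.B_IND
import Pool.Agent.Lib.T3Q.B_CASE
import Pool.Agent.Lib.T3Q.B_PICK
import Pool.Agent.Lib.T3Q.B_SUM

/-! Assembly of the general rows, dimension three. -/

namespace Pool.Agent.Lib.T3Q

theorem st_SUM : St_SUM := bSUM bKIT

theorem st_IND : St_IND := bIND bSPL

theorem st_CASE : St_CASE := bCASE bKIT (bCOND bSPL)

end Pool.Agent.Lib.T3Q
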