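import Pool.Agent.Lib.T3Q.Blue0

/-! Elementary facts on the replaced weights. -/

namespace Pool.Agent.Lib.T3Q

open MeasureTheory ProbabilityTheory Filter Topology Finset Pool.Agent.Lib.V3
open Pool.Agent.Lib.V5 (SW T)
open scoped NNReal ENNReal

namespace KIT

lemma mk_on {B : Set (Sym2 V)} (Γ : ℝ≥0) (τ : Cfg) {e : Sym2 V} (he : e ∈ B) :
    mk B Γ τ e = Γ := by
  simp only [mk, sp, he, if_true]

lemma mk_off {B : Set (Sym2 V)} (Γ : ℝ≥0) (τ : Cfg) {e : Sym2 V} (he : e ∉ B) :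
    mk B Γ τ e = τ e := by
  simp only [mk, sp, he, if_false]

lemma mk_meas (B : Set (Sym2 V)) (Γ : ℝ≥0) : Measurable (mk B Γ) := by
  refine measurable_pi_lambda _ fun e => ?_
  by_cases he : e ∈ B
  · simp only [mk_on Γ _ he]
    exact measurable_const
  · simp only [mk_off Γ _ he]
    exact measurable_pi_apply e

lemma min_le (B : Set (Sym2 V)) (Γ : ℝ≥0) (τ : Cfg) (u v : V) :
    min (T τ u v) Γ ≤ T (mk B Γ τ) u v := by
  refine V5.le_T fun q => ?_
  by_cases h : ∃ e ∈ q.edges, e ∈ B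
  · obtain ⟨e, he, hB⟩ := h
    have h1 := V5.SW_sublist (mk B Γ τ) (List.singleton_sublist.2 he)
    rw [V5.SW_cons, V5.SW_nil, add_zero, mk_on Γ τ hB] at h1
    exact (min_le_right _ _).trans h1
  · have h1 : SW (mk B Γ τ) q.edges = SW τ q.edges :=
      V5.SW_congr fun e he => mk_off Γ τ fun hB => h ⟨e, he, hB⟩
    rw [h1]
    exact (min_le_left _ _).trans (V5.T_le_SW τ q)

lemma psi_bd (u v : V) (t : ℝ) {H : ℝ} (hH : 0 ≤ H) (τ : Cfg) :
    -H ≤ Psi u v t H τ ∧ Psi u v t H τ ≤ 0 := by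
  unfold Psi
  have h1 := le_max_left (t - H) (min t (T τ u v))
  have h2 : max (t - H) (min t (T τ u v)) ≤ t := max_le (by linarith) (min_le_left _ _)
  constructor <;> linarith

lemma psi_meas (u v : V) (t H : ℝ) : Measurable (Psi u v t H) :=
  (measurable_const.max (measurable_const.min (V5.T_meas u v))).sub_const t

lemma psi_nice (u v : V) (t : ℝ) {H : ℝ} (hH : 0 ≤ H) : Nice (Psi u v t H) :=
  ⟨psi_meas u v t H, H, fun τ =>
    abs_le.2 ⟨(psi_bd u v t hH τ).1, (psi_bd u v t hH τ).2.trans hH⟩⟩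

lemma psi_zero (u v : V) {t H : ℝ} (hH : 0 ≤ H) {τ : Cfg} (h : t ≤ T τ u v) :
    Psi u v t H τ = 0 := by
  unfold Psi
  rw [min_eq_left h, max_eq_right (by linarith), sub_self]

lemma rep (p : Par) (B : Set (Sym2 V)) (Z : Set Cfg) (u v : V) (t H σ : ℝ) (hH : 0 ≤ H)
    (hZ : MeasurableSet Z) (hσ : p.pr ({τ | T τ u v < t} ∩ Z) ≤ σ) :
    Rep p B Z (Psi u v t H) (H ^ 2 * σ) := by
  have hA : MeasurableSet ({τ | T τ u v < t} ∩ Z) := (T3X.meas_lt u v t).inter hZ
  have hg : Nice fun τ => Z.indicator (fun _ => (1 : ℝ)) τ * Psi u v t H τ :=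
    (Nice.ind hZ).mul (psi_nice u v t hH)
  refine ⟨_, hg, ?_, fun Y _ hY => ?_⟩
  · have h1 : ∫ τ, (Z.indicator (fun _ => (1 : ℝ)) τ * Psi u v t H τ) ^ 2 ∂p.P ≤
        ∫ τ, H ^ 2 * ({τ | T τ u v < t} ∩ Z).indicator (fun _ => (1 : ℝ)) τ ∂p.P := by
      refine integral_mono_of_nonneg (Eventually.of_forall fun τ => sq_nonneg _)
        (((V3.Nice.const _).mul (Nice.ind hA)).int _) (Eventually.of_forall fun τ => ?_)
      by_cases h1 : τ ∈ Z
      · by_cases h2 : T τ u v < t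
        · have h3 : τ ∈ {τ | T τ u v < t} ∩ Z := ⟨h2, h1⟩
          obtain ⟨h4, h5⟩ := psi_bd u v t hH τ
          simp only [Set.indicator_of_mem h1, Set.indicator_of_mem h3, one_mul, mul_one]
          nlinarith
        · have h3 : τ ∉ {τ | T τ u v < t} ∩ Z := fun h => h2 h.1
          simp only [Set.indicator_of_notMem h3, psi_zero u v hH (not_lt.1 h2), mul_zero]
          norm_num
      · have h3 : τ ∉ {τ | T τ u v < t} ∩ Z := fun h => h1 h.2
        simp only [Set.indicator_of_notMem h3, Set.indicator_of_notMem h1, zero_mul, mul_zero]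
        norm_num
    rw [integral_const_mul, p.int_ind hA] at h1
    exact h1.trans (mul_le_mul_of_nonneg_left hσ (sq_nonneg H))
  · refine integral_congr_ae (Eventually.of_forall fun τ => ?_)
    by_cases h1 : τ ∈ Z
    · simp only [Set.indicator_of_mem h1, one_mul]
    · simp only [hY.2 τ h1, mul_zero]

lemma evx_meas (hi : ℝ≥0) (s : ℝ) (B : Set (Sym2 V)) (Γ : ℝ≥0) (o x : V) (a : V → ℝ)
    (i : V × V) : MeasurableSet (EvX hi s B Γ o x a i) :=
  (measurableSet_le (((V5.T_meas o i.1).add (V5.meas_w _)).add (V5.T_meas i.2 x))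
    ((V5.T_meas o x).add_const _)).inter
    ((measurableSet_lt measurable_const (measurable_pi_apply _)).inter
      ((measurableSet_lt ((V5.T_meas o i.1).comp (mk_meas B Γ))
        ((V5.T_meas o i.2).comp (mk_meas B Γ))).inter
        (measurableSet_lt ((V5.T_meas o i.1).comp (mk_meas B Γ)) measurable_const)))

lemma fr {B : Set (Sym2 V)} {Z : Set Cfg} {e : Sym2 V} (hZ : OffS B Z) (he : e ∈ B) :
    Fr Z e := by
  intro τ t
  have h : ∀ e', e' ∉ B → Function.update τ e t e' = τ e' := fun e' he' =>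
    Function.update_of_ne (fun h : e' = e => he' (h.symm ▸ he)) _ _
  exact ⟨hZ _ _ h, hZ _ _ fun e' he' => (h e' he').symm⟩

end KIT

theorem bKIT : St_KIT := by
  refine ⟨fun Γ τ => funext fun e => KIT.mk_off Γ τ (Set.notMem_empty e), KIT.mk_meas,
    fun B Γ τ e he => KIT.mk_off Γ τ he, fun B Γ τ τ' h => funext fun e => ?_, KIT.min_le,
    fun p B Γ u v c hc => p.pr_mono fun τ hτ => ?_, KIT.evx_meas, fun s u v t H => ?_,
    fun s u v t H => ?_, fun u v t H => funext fun τ => ?_,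
    fun u v t H hH => ⟨KIT.psi_nice u v t hH, KIT.psi_bd u v t hH⟩, KIT.rep,
    fun B Z e hZ he => KIT.fr hZ he⟩
  · by_cases he : e ∈ B
    · rw [KIT.mk_on Γ τ he, KIT.mk_on Γ τ' he]
    · rw [KIT.mk_off Γ τ he, KIT.mk_off Γ τ' he, h e he]
  · have h1 : min (T τ u v) Γ < c := (KIT.min_le B Γ τ u v).trans_lt hτ
    rcases min_lt_iff.1 h1 with h2 | h2
    · exact h2
    · exact absurd hc (not_le.2 h2)
  · exact (measurableSet_le measurable_const (V5.T_meas u v)).inter
      (measurableSet_le (V5.T_meas u v) measurable_const)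
  · unfold Wn
    simp only [V5.T_comm _ u v]
  · unfold Psi
    rw [V5.T_comm τ u v]

end Pool.Agent.Lib.T3Q
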