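import Pool.Agent.Lib.T3Q.Blue

/-! Row TOP: the variance bound fails at distance `2 ^ (A k ^ 2)`. -/

namespace Pool.Agent.Lib.T3Q

open MeasureTheory ProbabilityTheory Filter Topology Finset Pool.Agent.Lib.V3
open Pool.Agent.Lib.V5 (SW T Sys)
open Pool.Agent.Lib.T3S (Tb Qt Ok Gain Lin Adm)
open scoped NNReal ENNReal

namespace TOP

/-- a median is at most two standard deviations above the mean -/
lemma med (p : Sys) {σ X t : ℝ} {x : V} (hσ : 1 ≤ σ) (hV : p.VarM σ X) (hx : n1 x ≤ X)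
    (ht : p.pr {τ | T τ 0 x < t} ≤ 1 / 2) : t ≤ p.h x + 2 * σ := by
  by_contra hc
  have h1 := hV.high 0 x (by rwa [sub_zero]) (t := 2 * σ) (by linarith)
  have h2 : σ ^ 2 / (2 * σ) ^ 2 = 1 / 4 := by field_simp; norm_num
  rw [h2, sub_zero] at h1
  have h3 : (1 : ℝ) ≤ p.pr {τ | T τ 0 x < t} + p.pr {τ | t ≤ T τ 0 x} := by
    refine le_trans ?_ (measureReal_union_le (μ := p.P) _ _)
    refine le_trans (probReal_univ (μ := p.P)).ge (measureReal_mono fun τ _ => ?_)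
    exact lt_or_ge (T τ 0 x) t
  have h4 : p.pr {τ | t ≤ T τ 0 x} ≤ 1 / 4 := by
    refine le_trans (p.pr_mono fun τ hτ => ?_) h1
    have : t ≤ T τ 0 x := hτ
    simp only [Set.mem_ofPred_eq]
    linarith [not_le.1 hc]
  linarith

/-- the final numbers -/
lemma num {k Y F δ d e S S1 : ℝ} (hk : 1 ≤ k) (hF : 4 ≤ F) (hY : 0 ≤ Y) (hδ : δ ≤ 1) (hd : δ ≤ d)
    (d0 : 0 < d) (h : 30 * k * Y ≤ δ * F) (he : e ≤ Y) (hS : S ≤ Y) (h1 : S1 ≤ 3 * Y) :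
    e + 8 * k * S1 ≤ F ∧ ¬(F - 1) * d / 2 ≤ e + S := by
  have a1 : Y ≤ k * Y := le_mul_of_one_le_left hY hk
  have a2 : k * S1 ≤ k * (3 * Y) := mul_le_mul_of_nonneg_left h1 (by linarith)
  have a3 : δ * F ≤ F := mul_le_of_le_one_left (by linarith) hδ
  have a4 : δ * F ≤ d * F := mul_le_mul_of_nonneg_right hd (by linarith)
  have a5 : d * 4 ≤ d * F := mul_le_mul_of_nonneg_left hF d0.le
  exact ⟨by nlinarith, fun h2 => by nlinarith⟩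

/-- the three small quantities -/
lemma small {C c b d K L e S : ℝ} (C1 : 1 ≤ C) (c0 : 0 < c) (b0 : 0 < b) (d0 : 0 < d)
    (K1 : 1 ≤ K) (L0 : 0 ≤ L) (he : e ≤ C * K + 2 * K) (hS : S ≤ C * K + c * L) :
    e ≤ (C + 2 + c + b + d) * (K + L) ∧ S ≤ (C + 2 + c + b + d) * (K + L) ∧
      b + d ≤ (C + 2 + c + b + d) * (K + L) := by
  have K0 : 0 ≤ K := by linarith
  have a1 := mul_nonneg (show 0 ≤ C by linarith) L0
  have a2 := mul_nonneg c0.le L0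
  have a3 := mul_nonneg b0.le L0
  have a4 := mul_nonneg d0.le L0
  have a5 := mul_nonneg c0.le K0
  have a6 := le_mul_of_one_le_right b0.le K1
  have a7 := le_mul_of_one_le_right d0.le K1
  have a8 := mul_nonneg (show 0 ≤ C by linarith) K0
  have e : (C + 2 + c + b + d) * (K + L) = C * K + 2 * K + c * K + b * K + d * K +
      (C * L + 2 * L + c * L + b * L + d * L) := by ring
  rw [e]
  exact ⟨by linarith, by linarith, by linarith⟩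

lemma adm {q d C : ℝ} (C1 : 1 ≤ C) (k : ℕ) :
    (2560 * (2 ^ (2 * k) * d)) ^ 2 * ((q / 2560) ^ 2 / C / 64 ^ k) * (C * 4 ^ k) = (q * d) ^ 2 := by
  have p4 : (2 : ℝ) ^ (2 * k) = 4 ^ k := by rw [pow_mul]; norm_num
  have p64 : (64 : ℝ) ^ k = 4 ^ k * 4 ^ k * 4 ^ k := by rw [← mul_pow, ← mul_pow]; norm_num
  have : C ≠ 0 := by linarith
  rw [p4, p64]
  field_simp

lemma c0_le {q C : ℝ} (q0 : 0 < q) (q1 : q ≤ 1) (C1 : 1 ≤ C) : (q / 2560) ^ 2 / C ≤ q / 2 := by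
  refine (div_le_self (by positivity) C1).trans ?_
  nlinarith

lemma tail {C C' l s K w z : ℝ} (C1 : 1 ≤ C) (CC : C ≤ C') (hl : 0 ≤ l) (s0 : 0 ≤ s) (hs : s ≤ K)
    (hw : 0 ≤ w) (hz : 0 ≤ z) : 16 * (C * l * (s / w + z)) ≤ 16 * (C' * l * (K / w + z)) := by
  have : 0 ≤ C' := by linarith
  gcongr

end TOP

theorem bTOP (hQ : T3S.St_QUANT) (hE : St_END) (hT : T3S.St_TUBE) (hA : St_ARITH) :
    T3S.St_TOP 2 := by
  intro p hR
  obtain ⟨C, Γ, C1, Γ0, hT⟩ := hT p hR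
  have d0 : (0 : ℝ) < p.hi - p.lo := sub_pos.2 p.lo_lt_hi
  have q0 := p.q_pos'
  have q1 := p.q_le_one
  have b0 := p.b_pos
  have c0 := p.c_pos
  have i0 := p.hi_pos
  obtain ⟨C₀, hC₀⟩ := exists_nat_ge (max 2 ((8 * p.b + (p.hi - p.lo)) / p.hi))
  have C02 : 2 ≤ C₀ := by exact_mod_cast (le_max_left _ _).trans hC₀
  have C0b : 8 * p.b + (p.hi - p.lo) ≤ p.hi * C₀ :=
    (div_le_iff₀' i0).1 ((le_max_right _ _).trans hC₀)
  obtain ⟨c₀, hc₀⟩ : ∃ c₀, c₀ = (p.q / 2560) ^ 2 / C := ⟨_, rfl⟩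
  have e0 : 0 < c₀ := by rw [hc₀]; positivity
  have e1 : c₀ ≤ p.q / 2 := hc₀ ▸ TOP.c0_le q0 q1 C1
  obtain ⟨C', hC'⟩ : ∃ C', C' = C + 2 + p.c + p.b + (p.hi - p.lo) := ⟨_, rfl⟩
  have CC : C ≤ C' := by linarith
  obtain ⟨A, k₀, hA⟩ := hA c₀ C' (min 1 (p.hi - p.lo)) C₀ e0 (by linarith) (by linarith)
    (lt_min one_pos d0)
  refine ⟨A, k₀, Γ + 1, by linarith, fun k σ hk hσ hσk hV => ?_⟩
  obtain ⟨M, ρ₀, n₁, Λ, L₀, a1, a2, a3, a4, a5, a6, a7, a8, a9, a10, a11⟩ := hA k hk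
  obtain ⟨w, hw⟩ : ∃ w : ℕ, w = 2 ^ (A * k ^ 2) := ⟨_, rfl⟩
  have hw' : (w : ℝ) = 2 ^ (A * k ^ 2) := by rw [hw]; push_cast; rfl
  rw [← hw'] at hV a8 a9
  have K1 : (1 : ℝ) ≤ 2 ^ k := one_le_pow₀ one_le_two
  have G1 : (1 : ℝ) ≤ 2 ^ (4 * (2 * k)) := one_le_pow₀ one_le_two
  have n1' : (1 : ℝ) ≤ n₁ := (one_le_mul_of_one_le_of_one_le (C1.trans CC) K1).trans a5
  have u1 : C * n₁ ≤ C' * n₁ := mul_le_mul_of_nonneg_right CC (by linarith)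
  have u2 : (n₁ : ℝ) ≤ C * n₁ := le_mul_of_one_le_left (by linarith) C1
  have u3 : C' * n₁ ≤ Λ := (le_mul_of_one_le_left (by linarith) G1).trans a6
  have u4 : C * Λ ≤ w := (mul_le_mul_of_nonneg_right CC (Nat.cast_nonneg _)).trans a8
  have u5 : (Λ : ℝ) ≤ w := (le_mul_of_one_le_left (Nat.cast_nonneg _) C1).trans u4
  have w1 : (1 : ℝ) ≤ w := by linarith
  have u6 : (w : ℝ) ≤ w ^ 4 := le_self_pow₀ w1 (by norm_num)
  have u9 : 0 ≤ Γ * (w : ℝ) ^ 4 := by positivity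
  have u10 : (Γ + 1) * (w : ℝ) ^ 4 = Γ * w ^ 4 + w ^ 4 := by ring
  have u7 : C * σ ^ 4 ≤ C * 2 ^ k := mul_le_mul_of_nonneg_left hσk (by linarith)
  have u8 : C * 2 ^ k ≤ C' * 2 ^ k := mul_le_mul_of_nonneg_right CC (by linarith)
  have s1 : σ ≤ 2 ^ k := (le_self_pow₀ hσ (by norm_num)).trans hσk
  have s2 : σ ^ 2 ≤ 2 ^ k := (pow_le_pow_right₀ hσ (by norm_num)).trans hσk
  have F4 : (4 : ℝ) ≤ 4 ^ k := le_self_pow₀ (by norm_num) (by omega)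
  obtain ⟨P, x, hP, hX, hΛ, hC, hS, hps, x1, x2, x3⟩ := hT σ (4 ^ k) w Λ L₀ n₁ hσ (by linarith)
    (hV.mono (by linarith)) (by linarith) (by exact_mod_cast (by linarith : (n₁ : ℝ) ≤ w))
    (by exact_mod_cast (by linarith : (1 : ℝ) ≤ Λ)) a7 u4
  subst hP
  obtain ⟨t, ht⟩ := hQ P.toPar 0 x (1 / 2) (by norm_num) (by norm_num)
  have t1 := TOP.med P.toSys hσ hV (by linarith) ht.1
  have L0 : (0 : ℝ) ≤ L₀ := Nat.cast_nonneg _
  have dd : P.d = P.hi - P.lo := rfl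
  obtain ⟨Y1, Y2, Y3⟩ := TOP.small (e := t - P.ρ x) (S := P.S) C1 c0 b0 d0 K1 L0 (by linarith)
    (by linarith)
  rw [← hC'] at Y1 Y2 Y3
  obtain ⟨z1, z2⟩ := TOP.num (k := k) (F := 4 ^ k) (e := t - P.ρ x) (S := P.S) (S1 := P.S1)
    (by exact_mod_cast a11) F4 (P.S_nonneg.trans Y2) (min_le_left _ _) (min_le_right _ _) d0 a10
    Y1 Y2 (by unfold Tb.S1; linarith)
  have p4 : (2 : ℝ) ^ (2 * k) = 4 ^ k := by rw [pow_mul]; norm_num
  have θ1 : c₀ / 64 ^ k ≤ c₀ := div_le_self e0.le (one_le_pow₀ (by norm_num))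
  refine z2 (p4 ▸ hE P (c₀ / 64 ^ k) t C₀ ρ₀ M (2 * k) x C02 C0b
    ⟨by positivity, by linarith, mul_pos (by positivity) d0, le_of_eq ?_⟩ (by linarith)
    (by linarith) a1 a2 a3 (le_trans ?_ a9) ?_ ht ⟨?_, ?_⟩)
  · rw [hX, hC, hc₀]
    exact TOP.adm C1 k
  · rw [hps]
    exact TOP.tail C1 CC (by positivity) (sq_nonneg _) s2 (Nat.cast_nonneg _) (by positivity)
  · have : ((3 * (((12 * C₀ + 66) * M) ^ (2 * k) * ρ₀) : ℕ) : ℝ) ≤ n₁ := by exact_mod_cast a4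
    rw [Nat.cast_mul] at this
    push_cast at this ⊢
    linarith
  · rw [sub_zero, hΛ]
    exact (mul_le_mul_of_nonneg_left (x2.trans u1) (by positivity)).trans a6
  · rw [sub_zero, hX]
    push_cast
    linarith

end Pool.Agent.Lib.T3Q
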