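import Pool.Agent.Lib.T3Q.Blue0
import Pool.Agent.Lib.T3S.Blue

/-! Rows for the variance bound with fixed levels inside a tube, dimension three. -/

namespace Pool.Agent.Lib.T3Q

open MeasureTheory ProbabilityTheory Filter Topology Finset Pool.Agent.Lib.V3
open Pool.Agent.Lib.V5 (SW T Sys)
open Pool.Agent.Lib.T3X (Pth Dz bl near)
open Pool.Agent.Lib.T3S (Tb Qt Ok Gain Lin Adm Lig Tu Sh)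
open scoped NNReal ENNReal

lemma ok_anti {p : Tb} {i j : ℕ} {u v : V} {t : ℝ} (hij : i ≤ j) (h : Ok p j u v t) :
    Ok p i u v t := by
  have h1 : (2 : ℝ) ^ i ≤ 2 ^ j := pow_le_pow_right₀ one_le_two hij
  have h2 : (i : ℝ) ≤ j := by exact_mod_cast hij
  exact ⟨(mul_le_mul_of_nonneg_right h1 (n1_nonneg _)).trans h.1,
    by linarith [h.2, mul_le_mul_of_nonneg_right h2 p.S1_pos.le]⟩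

lemma ok_le {p : Tb} {j : ℕ} {u v : V} {t t' : ℝ} (ht : t' ≤ t) (h : Ok p j u v t) :
    Ok p j u v t' := ⟨h.1, by linarith [h.2]⟩

/-- both legs of a split have room for one generation less -/
lemma ok_legs {p : Tb} {j : ℕ} {u v y z : V} {t A B α β : ℝ} (h : Ok p (j + 1) u v t)
    (hyz : G.Adj y z) (hy : n1 (y - u) ≤ n1 (v - u)) (hz : n1 (z - u) ≤ n1 (v - u))
    (hA : Qt p.toPar α u y A) (hB : Qt p.toPar β z v B) (hα : p.ps < α) (hβ : p.ps < β)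
    (hs : A + p.hi + B ≤ t + p.d / 2) : Ok p j u y A ∧ Ok p j z v B := by
  obtain ⟨h1, h2⟩ := h
  have n0 := n1_nonneg (v - u)
  have j1 : (1 : ℝ) ≤ 2 ^ j := one_le_pow₀ one_le_two
  have j0 : (0 : ℝ) ≤ 2 ^ j := zero_le_one.trans j1
  rw [pow_succ] at h1
  have e1 : n1 (v - z) ≤ 2 * n1 (v - u) := by
    have := n1_tri z u v
    rw [n1_sub_comm u z] at this
    linarith
  have k1 : 2 ^ j * n1 (y - u) ≤ p.Λ := by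
    nlinarith [mul_le_mul_of_nonneg_left hy j0, mul_nonneg j0 n0]
  have k2 : 2 ^ j * n1 (v - z) ≤ p.Λ := by nlinarith [mul_le_mul_of_nonneg_left e1 j0]
  have l1 : n1 (y - u) ≤ p.Λ := (le_mul_of_one_le_left (n1_nonneg _) j1).trans k1
  have l2 : n1 (v - z) ≤ p.Λ := (le_mul_of_one_le_left (n1_nonneg _) j1).trans k2
  have a1 : p.ρ (y - u) - p.S ≤ A := by
    by_contra hc
    refine absurd (hA.2.trans ((p.pr_mono fun τ hτ => ?_).trans (p.out u))) (not_le.2 hα)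
    exact ⟨y, l1, by linarith [not_le.1 hc, p.ψ_nonneg (y - u), show T τ u y ≤ A from hτ]⟩
  have a2 : p.ρ (v - z) - p.S ≤ B := by
    by_contra hc
    refine absurd (hB.2.trans ((p.pr_mono fun τ hτ => ?_).trans (p.inn v))) (not_le.2 hβ)
    exact ⟨z, l2, by linarith [not_le.1 hc, show T τ z v ≤ B from hτ]⟩
  have r1 : p.ρ (v - u) = p.ρ (y - u) + p.ρ (z - y) + p.ρ (v - z) := by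
    rw [← p.ρ_add, ← p.ρ_add]
    exact congrArg _ (by abel)
  have r2 := (abs_le.1 (p.ρ_le (z - y))).2
  rw [n1_adj hyz, mul_one] at r2
  have s1 : p.S1 = 2 * p.S + p.b + p.d := rfl
  push_cast at h2
  exact ⟨⟨k1, by linarith [p.d_le, p.d_pos, p.S_nonneg]⟩,
    ⟨k2, by linarith [p.d_le, p.d_pos, p.S_nonneg]⟩⟩

/-- a piece of a nearly optimal path in the first shell, with a property `N` of its steps -/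
def Cross (τ : Cfg) (u v : V) (w : ℕ) (s : ℝ) (N : V → V → Prop) : Prop :=
  ∃ g, Pth (w - 1) g ∧ (∀ j, j ≤ w - 1 → Sh u w 1 (g j)) ∧ ∀ j, j < w - 1 →
    T τ u (g j) + τ s(g j, g (j + 1)) + T τ (g (j + 1)) v ≤ T τ u v + s ∧ N (g j) (g (j + 1))

/-- the martingale bound with the constants -/
def St_SUMC : Prop := ∀ (p : Tb) (B : Set (Sym2 V)) (Γ : ℝ≥0) (Z : Set Cfg) (o x : V)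
  (a : V → ℝ) (π σ ε θ t H : ℝ) (w : ℕ) (I : Finset (V × V)), Adm p θ H → 0 < σ → 0 < ε →
  0 ≤ π → σ * π ≤ ε ^ 2 * θ → 2 ≤ w → (I.card : ℝ) ≤ 100 * (w : ℝ) ^ 2 * (p.C * p.X) →
  MeasurableSet Z →
  (∀ i ∈ I, G.Adj i.1 i.2 ∧ s(i.1, i.2) ∉ B ∧ Fr Z s(i.1, i.2) ∧
    p.pr ({τ | T (mk B Γ τ) o i.1 < a i.1} ∩ Z) ≤ π) →
  Rep p.toPar B Z (Psi o x t H) (H ^ 2 * σ) →
  ∑ i ∈ I, p.pr (EvX p.hi (p.d / 2) B Γ o x a i ∩ (Wn (p.d / 2) o x t H ∩ Z)) ≤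
    ε * ((w - 1 : ℕ) : ℝ) / 64

/-- a heavy unmarked step -/
def St_GOOD : Prop := ∀ (hi : ℝ≥0) (τ : Cfg) (I : Finset (V × V))
  (Ev Ev' : V × V → Set Cfg) (n : ℕ) (g : ℕ → V), Pth n g → τ ∉ Lig hi (g 0) n →
  (∀ j, j < n → (g j, g (j + 1)) ∈ I ∧ (g (j + 1), g j) ∈ I) →
  4 * (cn Ev I τ + cn Ev' I τ) ≤ n →
  ∃ j, j < n ∧ hi < τ s(g j, g (j + 1)) ∧ τ ∉ Ev (g j, g (j + 1)) ∧ τ ∉ Ev' (g (j + 1), g j)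

/-- the crossing before the first exit -/
def St_SEG1 : Prop := ∀ (τ : Cfg) (Γ : ℝ≥0) (u v : V) (w : ℕ) (s : ℝ), 1 ≤ w → 0 < s →
  ((2 * w : ℕ) : ℝ) ≤ n1 (v - u) → Cross τ u v w s fun y z =>
    T (mk (near u ((2 * w : ℕ) : ℝ))ᶜ Γ τ) u y + τ s(y, z) + T τ z v ≤ T τ u v + s

/-- the crossing after the last visit -/
def St_SEG2 : Prop := ∀ (τ : Cfg) (B : Set (Sym2 V)) (Γ : ℝ≥0) (u v : V) (w : ℕ) (s : ℝ),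
  1 ≤ w → 0 < s → B ⊆ near u w → ((2 * w : ℕ) : ℝ) ≤ n1 (v - u) → Cross τ u v w s fun y z =>
    T τ u y + τ s(y, z) + T (mk B Γ τ) z v ≤ T τ u v + s

/-- one good edge in the first shell -/
def St_ONE : Prop := ∀ (p : Tb) (B₁ B₂ : Set (Sym2 V)) (Γ : ℝ≥0) (Z : Set Cfg)
  (u v : V) (a b : V → ℝ) (π₁ σ₁ π₂ σ₂ ε θ t H : ℝ) (w : ℕ) (N : Cfg → V → V → Prop),
  Adm p θ H → 0 < σ₁ → 0 < σ₂ → 0 < ε → 0 ≤ π₁ → 0 ≤ π₂ → σ₁ * π₁ ≤ ε ^ 2 * θ →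
  σ₂ * π₂ ≤ ε ^ 2 * θ → 2 ≤ w → MeasurableSet Z →
  1000 * (w : ℝ) ^ 3 * (1 / 2) ^ (w - 1) ≤ ε → ((2 * w : ℕ) : ℝ) ≤ n1 (v - u) →
  Ok p 1 u v t → 16 * p.ps ≤ ε →
  (∀ y z, G.Adj y z → Sh u w 1 y → Sh u w 1 z →
    s(y, z) ∉ B₁ ∧ s(y, z) ∉ B₂ ∧ Fr Z s(y, z)) →
  (∀ y, Sh u w 1 y → p.pr ({τ | T (mk B₁ Γ τ) u y < a y} ∩ Z) ≤ π₁) →
  (∀ z, Sh u w 1 z → p.pr ({τ | T (mk B₂ Γ τ) v z < b z} ∩ Z) ≤ π₂) →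
  Rep p.toPar B₁ Z (Psi u v t H) (H ^ 2 * σ₁) → Rep p.toPar B₂ Z (Psi u v t H) (H ^ 2 * σ₂) →
  ε / 2 ≤ p.pr (Wn (p.d / 2) u v t H ∩ Z) → (∀ τ, Cross τ u v w (p.d / 2) (N τ)) →
  ∃ (τ : Cfg) (y z : V), T τ u v ≤ t ∧ G.Adj y z ∧ Sh u w 1 y ∧ Sh u w 1 z ∧
    p.hi < τ s(y, z) ∧ T τ u y + τ s(y, z) + T τ z v ≤ T τ u v + p.d / 2 ∧ N τ y z ∧
    (T (mk B₁ Γ τ) u y < T (mk B₁ Γ τ) u z → a y ≤ T (mk B₁ Γ τ) u y) ∧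
    (T (mk B₂ Γ τ) v z < T (mk B₂ Γ τ) v y → b z ≤ T (mk B₂ Γ τ) v z)

/-- the outside decides much: the near leg has a high level -/
def St_T1 : Prop := ∀ (p : Tb) (j : ℕ) (K : ℝ), 0 < K → Lin p.toPar K →
  ∀ (Z : Set Cfg) (u v : V) (α κ θ t H : ℝ) (w : ℕ), Adm p θ H → 0 < α → α ≤ 1 → 0 < κ →
  κ ≤ 1 → 2 ≤ w → ((2 * w : ℕ) : ℝ) ≤ n1 (v - u) →
  1000 * (w : ℝ) ^ 3 * (1 / 2) ^ (w - 1) ≤ κ * α / 2 → Ok p (j + 1) u v t →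
  32 * p.ps ≤ κ * α * θ → MeasurableSet Z →
  OffS (near u ((2 * w : ℕ) : ℝ)) Z → κ * α / 2 ≤ p.pr ({τ | T τ u v < t} ∩ Z) →
  κ / 2 * p.pr Z ≤ p.pr ({τ | T τ u v < t} ∩ Z) →
  κ * α / 4 ≤ p.pr {τ | T τ u v ≤ t - H + p.d / 2} ∨
    ∃ (y z : V) (A A' : ℝ), G.Adj y z ∧ Sh u w 1 y ∧ Sh u w 1 z ∧
      Qt p.toPar (κ * θ / 2) u y A ∧ Qt p.toPar (κ * α * θ / 2) z v A' ∧
      A + p.hi + A' ≤ t + p.d / 2 ∧ Ok p j u y A ∧ Ok p j z v A'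

/-- the outside decides little: the far leg has a high level -/
def St_T2 : Prop := ∀ (p : Tb) (j : ℕ) (K : ℝ), 0 < K → Lin p.toPar K →
  ∀ (B : Set (Sym2 V)) (u v : V) (α κ θ t H : ℝ) (w : ℕ), Adm p θ H → 0 < α → α ≤ 1 / 2 →
  0 < κ → κ ≤ 1 → α * θ / κ ≤ 1 / 2 → 2 ≤ w → B ⊆ near u w → ((2 * w : ℕ) : ℝ) ≤ n1 (v - u) →
  1000 * (w : ℝ) ^ 3 * (1 / 2) ^ (w - 1) ≤ α → Qt p.toPar α u v t → Ok p (j + 1) u v t →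
  16 * p.ps ≤ α * θ → Rep p.toPar B Set.univ (Psi u v t H) (H ^ 2 * (κ * α)) →
  α / 2 ≤ p.pr {τ | T τ u v ≤ t - H + p.d / 2} ∨
    ∃ (y z : V) (A A' : ℝ), G.Adj y z ∧ Sh u w 1 y ∧ Sh u w 1 z ∧
      Qt p.toPar (α * θ) u y A ∧ Qt p.toPar (α * θ / κ) z v A' ∧ A + p.hi + A' ≤ t + p.d / 2 ∧
      Ok p j u y A ∧ Ok p j z v A'

/-- a short segment of high level -/
def St_SPLIT : Prop := ∀ (p : Tb) (j : ℕ) (K : ℝ), 0 < K → Lin p.toPar K →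
  ∀ (z v : V) (θ t H : ℝ) (ρ : ℕ), Adm p θ H → θ ≤ p.q → θ ≤ 1 / 2 → 2 ≤ ρ →
  1000 * (ρ : ℝ) ^ 3 * (1 / 2) ^ (ρ - 1) ≤ θ ^ 13 →
  1000 * ((2 * ρ : ℕ) : ℝ) ^ 3 * (1 / 2) ^ (2 * ρ - 1) ≤ θ ^ 8 → 16 * p.ps ≤ θ ^ 14 →
  ((6 * ρ : ℕ) : ℝ) ≤ n1 (v - z) → Qt p.toPar (θ ^ 8) z v t → Ok p (j + 2) z v t →
  θ ^ 17 ≤ p.pr {τ | T τ z v ≤ t - H + p.d / 2} ∨
    ∃ (z₀ y₀ : V) (γ A : ℝ) (W : Set Cfg), n1 (z₀ - z) ≤ 4 * ρ ∧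
      (ρ : ℝ) ≤ n1 (y₀ - z₀) ∧ n1 (y₀ - z₀) ≤ 2 * ρ ∧ θ ^ 6 ≤ γ ∧ γ ≤ 1 / 2 ∧
      Qt p.toPar γ z₀ y₀ A ∧ Ok p j z₀ y₀ A ∧ MeasurableSet W ∧ IsLowerSet W ∧ θ ^ 17 ≤ p.pr W ∧
      ∀ τ ∈ W, T τ z v ≤ T τ z₀ y₀ + (t - A) - p.d / 2

/-- one level is enough -/
def St_MONO : Prop := ∀ (p : Tb) (j : ℕ) (g ρ π c : ℝ), 0 < π → π < 1 →
  (∀ (u v : V) (t : ℝ), ρ ≤ n1 (v - u) → Qt p.toPar π u v t → Ok p j u v t →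
    c ≤ p.pr {τ | T τ u v ≤ t - g}) → Gain p j g ρ π 0 c

/-- two halves -/
def St_CONC : Prop := ∀ (p : Tb) (j : ℕ) (g π θ H c : ℝ) (ρ : ℕ), Adm p θ H → θ ≤ p.q →
  2 * g + p.d ≤ H → 2 ≤ ρ → 0 < π → 0 ≤ c → c ≤ π / 2 → 16 * p.ps ≤ π * θ →
  1000 * (ρ : ℝ) ^ 3 * (1 / 2) ^ (ρ - 1) ≤ π →
  Gain p j g ρ (π * θ) 0 c →
  Gain p (j + 1) (2 * g + p.d / 2) ((3 * ρ : ℕ) : ℝ) π 0 (θ * c ^ 2)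

/-- many places -/
def St_RES : Prop := ∀ (p : Tb) (j : ℕ) (K : ℝ), 0 < K → Lin p.toPar K →
  ∀ (g θ H φ : ℝ) (ρ L M w : ℕ), Adm p θ H → θ ≤ p.q → θ ≤ 1 / 2 → 0 ≤ g → g + p.d / 2 ≤ H →
  0 < φ → Gain p j g ρ (θ ^ 6) 0 φ → 2 ≤ ρ → 4 * K * ρ + p.d ≤ p.hi * L →
  1000 * (ρ : ℝ) ^ 3 * (1 / 2) ^ (ρ - 1) ≤ θ ^ 13 →
  1000 * ((2 * ρ : ℕ) : ℝ) ^ 3 * (1 / 2) ^ (2 * ρ - 1) ≤ θ ^ 8 → 16 * p.ps ≤ θ ^ 14 →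
  (1 / 2) ^ L ≤ φ / 2 → 1 ≤ M → 2 * L + 8 * ρ ≤ w →
  1000 * ((M : ℝ) * w) ^ 3 * (1 / 2) ^ (w - 1) ≤ θ ^ 7 → 32 ≤ θ ^ 52 * M * φ →
  ∀ (u v : V) (t : ℝ), (((M + 1) * w + 6 * ρ : ℕ) : ℝ) ≤ n1 (v - u) →
  Qt p.toPar (θ ^ 7) u v t → Ok p (j + 3) u v t → θ ^ 27 ≤ p.pr {τ | T τ u v ≤ t - g}

/-- one round -/
def St_STEP : Prop := ∀ (p : Tb) (j : ℕ) (K g θ H : ℝ) (C₀ ρ M : ℕ), 0 < K →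
  Lin p.toPar K → 2 ≤ C₀ → 4 * K + p.d ≤ p.hi * C₀ → Adm p θ H → θ ≤ p.q → θ ≤ 1 / 2 → 0 ≤ g →
  2 * g + p.d ≤ H → 2 ≤ ρ → 16 * p.ps ≤ θ ^ 14 → 32 ≤ θ ^ 107 * M →
  2000 * (((6 * C₀ + 24 : ℕ) : ℝ) * M * ρ) ^ 3 * (1 / 2) ^ ρ ≤ θ ^ 56 →
  Gain p j g ρ (θ ^ 7) 0 (θ ^ 27) →
  Gain p (j + 4) (2 * g + p.d / 2) (((12 * C₀ + 66) * M * ρ : ℕ) : ℝ) (θ ^ 7) 0 (θ ^ 27)

/-- `n` rounds -/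
def St_ITER : Prop := ∀ (p : Tb) (K θ H : ℝ) (C₀ ρ₀ M n : ℕ), 0 < K →
  Lin p.toPar K → 2 ≤ C₀ → 4 * K + p.d ≤ p.hi * C₀ → Adm p θ H → θ ≤ p.q → θ ≤ 1 / 2 →
  2 ^ n * p.d ≤ H → 2 ≤ ρ₀ → 16 * p.ps ≤ θ ^ 14 → 32 ≤ θ ^ 107 * M →
  (∀ ρ : ℕ, ρ₀ ≤ ρ → 2000 * (((6 * C₀ + 24 : ℕ) : ℝ) * M * ρ) ^ 3 * (1 / 2) ^ ρ ≤ θ ^ 56) →
  Gain p (4 * n) ((2 ^ n - 1) * p.d / 2) ((((12 * C₀ + 66) * M) ^ n * ρ₀ : ℕ) : ℝ) (θ ^ 7) 0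
    (θ ^ 27)

/-- the gain cannot pass the strong lower tail -/
def St_END : Prop := ∀ (p : Tb) (θ t : ℝ) (C₀ ρ₀ M n : ℕ) (x : V), 2 ≤ C₀ →
  8 * p.b + p.d ≤ p.hi * C₀ → Adm p θ (2 ^ n * p.d) → θ ≤ p.q → θ ≤ 1 / 2 → 2 ≤ ρ₀ →
  32 ≤ θ ^ 107 * M →
  (∀ ρ : ℕ, ρ₀ ≤ ρ → 2000 * (((6 * C₀ + 24 : ℕ) : ℝ) * M * ρ) ^ 3 * (1 / 2) ^ ρ ≤ θ ^ 56) →
  16 * p.ps ≤ θ ^ 27 → ((((12 * C₀ + 66) * M) ^ n * ρ₀ : ℕ) : ℝ) ≤ n1 x →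
  Qt p.toPar (1 / 2) 0 x t → Ok p (4 * n) 0 x t → (2 ^ n - 1) * p.d / 2 ≤ t - p.ρ x + p.S

/-- choice of the parameters -/
def St_ARITH : Prop := ∀ (c₀ C δ : ℝ) (C₀ : ℕ), 0 < c₀ → c₀ ≤ 1 → 1 ≤ C → 0 < δ → ∃ A k₀ : ℕ,
  ∀ k : ℕ, k₀ ≤ k → ∃ M ρ₀ n₁ Λ L₀ : ℕ, 2 ≤ ρ₀ ∧ 32 ≤ (c₀ / 64 ^ k) ^ 107 * M ∧
    (∀ ρ : ℕ, ρ₀ ≤ ρ → 2000 * (((6 * C₀ + 24 : ℕ) : ℝ) * M * ρ) ^ 3 * (1 / 2) ^ ρ ≤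
      (c₀ / 64 ^ k) ^ 56) ∧
    3 * (((12 * C₀ + 66) * M) ^ (2 * k) * ρ₀) ≤ n₁ ∧ C * 2 ^ k ≤ n₁ ∧
    2 ^ (4 * (2 * k)) * (C * n₁) ≤ Λ ∧ L₀ ≤ Λ ∧ C * Λ ≤ 2 ^ (A * k ^ 2) ∧
    16 * (C * Λ ^ 6 * (2 ^ k / 2 ^ (A * k ^ 2) + (1 / 2) ^ L₀)) ≤ (c₀ / 64 ^ k) ^ 27 ∧
    30 * k * (C * (2 ^ k + L₀)) ≤ δ * 4 ^ k ∧ 1 ≤ k

end Pool.Agent.Lib.T3Q
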